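import Pool.Agent.Q299.HT.BXNA
import Pool.Agent.Q99.HT.Stm4

/-!
# Project HT, job BXN: all integrals together

Proof by helper299 (`th_bounds`, `kz_cont` are as in `Pool/Agent/Q208/KN/BOX.lean`).
-/

set_option autoImplicit false

namespace Pool.Agent.Q299.HT

open Finset Filter Topology MeasureTheory
open Pool.Agent.Q99.HT
open Pool.Agent.Q99.KN (sn bc Wk zl ez Fk cz LC bb Gm St ct S_LC S_GAM S_PZ QZ kz th jN S_LAP S_GIM)

theorem th_bounds {ρ : ℝ} (h0 : 0 < ρ) (h1 : ρ ≤ 1 / 16) {N : ℕ} (hN : 16 / ρ ≤ N) :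
    0 < th ρ N ∧ th ρ N ≤ ρ / 4 := by
  have hN0 : (0 : ℝ) < N := lt_of_lt_of_le (by positivity) hN
  have hNρ : 16 ≤ N * ρ := by rwa [div_le_iff₀ h0] at hN
  have h2 : (1 - ρ / 4) * N / 2 ≤ jN ρ N := Nat.le_ceil _
  have h3 : (jN ρ N : ℝ) < (1 - ρ / 4) * N / 2 + 1 := Nat.ceil_lt_add_one (by
    have : 0 ≤ 1 - ρ / 4 := by linarith
    positivity)
  unfold th
  constructor
  · rw [sub_pos, div_lt_one hN0]
    nlinarith
  · rw [sub_le_iff_le_add, ← sub_le_iff_le_add', le_div_iff₀ hN0]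
    linarith

theorem kz_cont {N : ℕ} (hN : 0 < N) {y : ℝ} (hy : 0 < y) :
    Continuous (fun x : ℝ => kz N (N * (x + y * Complex.I))) := by
  unfold kz
  refine Continuous.div continuous_const (by fun_prop) fun x => pow_ne_zero 2 fun h => ?_
  rw [Complex.sin_eq_zero_iff] at h
  obtain ⟨m, hm⟩ := h
  have h2 := congrArg Complex.im hm
  have h3 : (Real.pi * ((N : ℂ) * (x + y * Complex.I) - N + 1) / 2 : ℂ) =
      ((Real.pi * (N * x - N + 1) / 2 : ℝ) : ℂ) + ((Real.pi * (N * y) / 2 : ℝ) : ℂ) * Complex.I := by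
    push_cast
    ring
  have h4 : ((m : ℂ) * Real.pi).im = 0 := by
    have : ((m : ℂ) * Real.pi) = ((m * Real.pi : ℝ) : ℂ) := by push_cast; rfl
    rw [this, Complex.ofReal_im]
  rw [h3, h4] at h2
  simp only [Complex.add_im, Complex.ofReal_im, Complex.mul_im, Complex.ofReal_re, Complex.I_im,
    mul_one, Complex.I_re, mul_zero, add_zero, zero_add] at h2
  have hN0 : (0 : ℝ) < N := by exact_mod_cast hN
  have : 0 < Real.pi * (N * y) / 2 := by have := Real.pi_pos; positivity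
  linarith

theorem norm_re_im (x y a : ℝ) : ‖((x : ℂ) + y * Complex.I) - a‖ ≤ |x - a| + |y| := by
  have h2 : (x : ℂ) + y * Complex.I - a = ((x - a : ℝ) : ℂ) + (y : ℂ) * Complex.I := by
    push_cast
    ring
  rw [h2]
  refine (norm_add_le _ _).trans ?_
  rw [Complex.norm_real, norm_mul, Complex.norm_real, Complex.norm_I, mul_one, Real.norm_eq_abs,
    Real.norm_eq_abs]

/-- the interval around lattice points -/
theorem lohi {N : ℕ} (hN : 0 < N) {a b x : ℝ} (hx : x ∈ Set.Icc (lo N ⌈(N : ℝ) * a⌉) (hi N ⌊(N : ℝ) * b⌋)) :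
    a - 1 / (2 * N) ≤ x ∧ x ≤ b + 1 / (2 * N) := by
  have hN0 : (0 : ℝ) < N := by exact_mod_cast hN
  obtain ⟨h1, h2⟩ := hx
  unfold lo at h1
  unfold hi at h2
  have h3 : (N : ℝ) * a ≤ ⌈(N : ℝ) * a⌉ := Int.le_ceil _
  have h4 : (⌊(N : ℝ) * b⌋ : ℝ) ≤ (N : ℝ) * b := Int.floor_le _
  constructor
  · refine le_trans ?_ h1
    rw [le_div_iff₀ hN0]
    have : (a - 1 / (2 * N)) * N = N * a - 1 / 2 := by field_simp
    rw [this]
    linarith
  · refine le_trans h2 ?_
    rw [div_le_iff₀ hN0]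
    have : (b + 1 / (2 * N)) * N = N * b + 1 / 2 := by field_simp
    rw [this]
    linarith

theorem lohi_le {N : ℕ} (hN : 0 < N) {a b : ℝ} (h : 1 ≤ N * (b - a)) :
    lo N ⌈(N : ℝ) * a⌉ ≤ hi N ⌊(N : ℝ) * b⌋ := by
  have hN0 : (0 : ℝ) < N := by exact_mod_cast hN
  unfold lo hi
  refine div_le_div_of_nonneg_right ?_ hN0.le
  have h1 : (⌈(N : ℝ) * a⌉ : ℝ) < N * a + 1 := Int.ceil_lt_add_one _
  have h2 : (N : ℝ) * b < ⌊(N : ℝ) * b⌋ + 1 := Int.lt_floor_add_one _
  nlinarith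

section
variable {c d : ℕ} (X : Nw c d)

/-- the summation index -/
noncomputable def Jc (ηJ : Fin c → ℝ) (s : Fin c) (j : ℝ) : ℂ :=
  if X.α s 1 ≠ 0 then (j : ℂ) + ηJ s * Complex.I else 0

/-- one factor -/
noncomputable def Fs (N : ℕ) (w : Fin c → ℤ) (y ηJ : Fin c → ℝ) (η : Fin d → ℝ) (s : Fin c)
    (q : (Fin d → ℝ) × ℝ × ℝ) : ℂ :=
  -(N / (Real.pi * Complex.I)) * (ez N (w s) (N * (q.2.1 + y s * Complex.I)) *
    Complex.sin (Real.pi * (q.2.1 + y s * Complex.I)) * kz N (N * (q.2.1 + y s * Complex.I))) *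
    (if X.α s 1 = 0 then 1 else (N : ℂ)) *
    PB N (X.α s) ![X.xN N (fun j => q.1 j + η j * Complex.I) s 0,
      X.xN N (fun j => q.1 j + η j * Complex.I) s 1, X.xN N (fun j => q.1 j + η j * Complex.I) s 2,
      Jc X ηJ s q.2.2] (q.2.1 + y s * Complex.I)

/-- the intervals of the summation index -/
noncomputable def IJ (r : ℝ) (N : ℕ) (s : Fin c) : Set ℝ :=
  if X.α s 1 ≠ 0 then Set.Icc (lo N ⌈(N : ℝ) * (X.α s 1 - r / 4)⌉) (hi N ⌊(N : ℝ) * (X.α s 1 + r / 4)⌋)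
  else {0}

theorem IJ_compact (r : ℝ) (N : ℕ) (s : Fin c) : IsCompact (IJ X r N s) := by
  unfold IJ
  split_ifs
  · exact isCompact_Icc
  · exact isCompact_singleton

theorem IJ_meas (r : ℝ) (N : ℕ) (s : Fin c) : MeasurableSet (IJ X r N s) := by
  unfold IJ
  split_ifs
  · exact measurableSet_Icc
  · exact MeasurableSet.singleton 0

theorem bx_compact (δ : ℝ) (N : ℕ) : IsCompact (X.bx δ N) :=
  isCompact_univ_pi fun _ => isCompact_Icc

theorem bx_meas (δ : ℝ) (N : ℕ) : MeasurableSet (X.bx δ N) :=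
  MeasurableSet.univ_pi fun _ => measurableSet_Icc

/-- the set of one factor -/
noncomputable def Ks (r δ : ℝ) (N : ℕ) (s : Fin c) : Set ((Fin d → ℝ) × ℝ × ℝ) :=
  X.bx δ N ×ˢ Set.Icc (-th r N) (th r N) ×ˢ IJ X r N s

theorem Ks_compact (r δ : ℝ) (N : ℕ) (s : Fin c) : IsCompact (Ks X r δ N s) :=
  (bx_compact X δ N).prod (isCompact_Icc.prod (IJ_compact X r N s))

theorem Ks_meas (r δ : ℝ) (N : ℕ) (s : Fin c) : MeasurableSet (Ks X r δ N s) :=
  (bx_meas X δ N).prod (measurableSet_Icc.prod (IJ_meas X r N s))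

/-- the points are in the balls -/
theorem in_ball {κ K C0 r δ M τ2 : ℝ} {s : Fin c} (hB : Blk (X.α s) r κ K C0) (hδ : 0 < δ)
    (hx : ∀ T : Fin d → ℂ, (∀ j, ‖T j - X.τ j‖ ≤ 2 * δ) → X.x T s ∈ Metric.ball (qC (X.α s)) (r / 4))
    (hM : ∀ i, |(X.q0 s i : ℝ)| ≤ M) (hτδ : τ2 ≤ δ / 2) (hτr : τ2 ≤ r / 8) {N : ℕ} (hN : 0 < N)
    (hNr : 16 / r ≤ N) (hNδ : 1 / δ ≤ N) (hNM : 4 * M / r ≤ N) {y ηJ : Fin c → ℝ} {η : Fin d → ℝ}
    (hy : 0 < y s ∧ y s ≤ τ2) (hJ : |ηJ s| ≤ τ2) (hη : ∀ j, |η j| ≤ τ2)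
    {q : (Fin d → ℝ) × ℝ × ℝ} (hq : q ∈ Ks X r δ N s) :
    ![X.xN N (fun j => q.1 j + η j * Complex.I) s 0,
      X.xN N (fun j => q.1 j + η j * Complex.I) s 1, X.xN N (fun j => q.1 j + η j * Complex.I) s 2,
      Jc X ηJ s q.2.2] ∈ Metric.ball (vC (X.α s)) r ∧
    (q.2.1 + y s * Complex.I : ℂ) ∈ Metric.ball (0 : ℂ) r := by
  have hN0 : (0 : ℝ) < N := by exact_mod_cast hN
  have hr := hB.r0
  have hr16 : r ≤ 1 / 16 := hB.r1.trans (by norm_num)
  have hNr' : 16 ≤ N * r := by rwa [div_le_iff₀ hr] at hNr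
  have hNδ' : 1 ≤ N * δ := by rwa [div_le_iff₀ hδ] at hNδ
  have hNM' : 4 * M ≤ N * r := by rwa [div_le_iff₀ hr] at hNM
  obtain ⟨h1, h2, h3⟩ := hq
  have e1 : 1 / (2 * (N : ℝ)) ≤ δ / 2 := by
    rw [div_le_div_iff₀ (by positivity) (by norm_num)]
    linarith
  have e2 : 1 / (2 * (N : ℝ)) ≤ r / 32 := by
    rw [div_le_div_iff₀ (by positivity) (by norm_num)]
    linarith
  -- the lattice variables
  have hT : ∀ j, ‖((q.1 j : ℂ) + η j * Complex.I) - X.τ j‖ ≤ 2 * δ := by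
    intro j
    refine (norm_re_im _ _ _).trans ?_
    have h4 := lohi hN (h1 j (Set.mem_univ _))
    have h5 : |q.1 j - X.τ j| ≤ δ + δ / 2 := by
      rw [abs_le]
      constructor <;> linarith [h4.1, h4.2]
    linarith [hη j]
  have hX1 := hx _ hT
  have hball : ∀ i, ‖X.xN N (fun j => q.1 j + η j * Complex.I) s i - qC (X.α s) i‖ < r := by
    intro i
    have h5 : ‖X.x (fun j => q.1 j + η j * Complex.I) s i - qC (X.α s) i‖ < r / 4 := by
      rw [Metric.mem_ball, dist_eq_norm] at hX1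
      exact lt_of_le_of_lt (norm_le_pi_norm (X.x (fun j => q.1 j + η j * Complex.I) s -
        qC (X.α s)) i) hX1
    have h6 : X.xN N (fun j => q.1 j + η j * Complex.I) s i - qC (X.α s) i =
        (X.x (fun j => q.1 j + η j * Complex.I) s i - qC (X.α s) i) - ((X.q0 s i / N : ℝ) : ℂ) := by
      unfold Nw.xN Nw.x
      push_cast
      ring
    rw [h6]
    refine (norm_sub_le _ _).trans_lt ?_
    rw [Complex.norm_real, Real.norm_eq_abs, abs_div, abs_of_pos hN0]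
    have h7 : |(X.q0 s i : ℝ)| / N ≤ r / 4 := by
      rw [div_le_iff₀ hN0]
      linarith [hM i]
    linarith
  refine ⟨?_, ?_⟩
  · rw [Metric.mem_ball, dist_eq_norm, pi_norm_lt_iff hr]
    intro i
    fin_cases i
    · have := hball 0
      simpa [qC, qc, vC] using this
    · have := hball 1
      simpa [qC, qc, vC] using this
    · have := hball 2
      simpa [qC, qc, vC] using this
    · show ‖Jc X ηJ s q.2.2 - (X.α s 1 : ℂ)‖ < r
      unfold Jc
      by_cases hs : X.α s 1 ≠ 0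
      · rw [if_pos hs]
        unfold IJ at h3
        rw [if_pos hs] at h3
        have h4 := lohi hN h3
        refine (norm_re_im _ _ _).trans_lt ?_
        have h5 : |q.2.2 - X.α s 1| ≤ r / 4 + r / 32 := by
          rw [abs_le]
          constructor <;> linarith [h4.1, h4.2]
        linarith
      · rw [if_neg hs]
        rw [not_not] at hs
        rw [hs]
        simpa using hr
  · have h4 := th_bounds hr hr16 hNr
    rw [Metric.mem_ball, dist_eq_norm, sub_zero]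
    have h5 := norm_re_im q.2.1 (y s) 0
    rw [Complex.ofReal_zero, sub_zero, sub_zero] at h5
    refine h5.trans_lt ?_
    have h6 : |q.2.1| ≤ r / 4 := by
      rw [abs_le]
      constructor <;> linarith [h2.1, h2.2, h4.2]
    rw [abs_of_pos hy.1]
    linarith [hy.2]

theorem vec4_cont {Y : Type} [TopologicalSpace Y] {f0 f1 f2 f3 : Y → ℂ} (h0 : Continuous f0)
    (h1 : Continuous f1) (h2 : Continuous f2) (h3 : Continuous f3) :
    Continuous fun q => ![f0 q, f1 q, f2 q, f3 q] := by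
  refine continuous_pi fun i => ?_
  fin_cases i
  · exact h0
  · exact h1
  · exact h2
  · exact h3

theorem Fs_cont {κ K C0 r δ : ℝ} {s : Fin c} (hB : Blk (X.α s) r κ K C0) {N : ℕ} (hN : 0 < N)
    (w : Fin c → ℤ) {y ηJ : Fin c → ℝ} {η : Fin d → ℝ} (hy : 0 < y s)
    (hb : ∀ q ∈ Ks X r δ N s, ![X.xN N (fun j => q.1 j + η j * Complex.I) s 0,
      X.xN N (fun j => q.1 j + η j * Complex.I) s 1, X.xN N (fun j => q.1 j + η j * Complex.I) s 2,
      Jc X ηJ s q.2.2] ∈ Metric.ball (vC (X.α s)) r ∧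
      (q.2.1 + y s * Complex.I : ℂ) ∈ Metric.ball (0 : ℂ) r) :
    ContinuousOn (Fs X N w y ηJ η s) (Ks X r δ N s) := by
  unfold Fs
  have c1 : Continuous fun q : (Fin d → ℝ) × ℝ × ℝ => kz N (N * (q.2.1 + y s * Complex.I)) :=
    (kz_cont hN hy).comp (continuous_fst.comp continuous_snd)
  have c2 : Continuous fun q : (Fin d → ℝ) × ℝ × ℝ => ez N (w s) (N * (q.2.1 + y s * Complex.I)) *
    Complex.sin (Real.pi * (q.2.1 + y s * Complex.I)) := by
    unfold ez
    fun_prop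
  have c3 : ∀ i, Continuous fun q : (Fin d → ℝ) × ℝ × ℝ =>
      X.xN N (fun j => q.1 j + η j * Complex.I) s i := by
    intro i
    unfold Nw.xN
    fun_prop
  have c4 : Continuous fun q : (Fin d → ℝ) × ℝ × ℝ => Jc X ηJ s q.2.2 := by
    unfold Jc
    by_cases hs : X.α s 1 ≠ 0
    · simp only [if_pos hs]
      fun_prop
    · simp only [if_neg hs]
      fun_prop
  have c5 : ContinuousOn (fun q : (Fin d → ℝ) × ℝ × ℝ =>
      PB N (X.α s) ![X.xN N (fun j => q.1 j + η j * Complex.I) s 0,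
      X.xN N (fun j => q.1 j + η j * Complex.I) s 1, X.xN N (fun j => q.1 j + η j * Complex.I) s 2,
      Jc X ηJ s q.2.2] (q.2.1 + y s * Complex.I)) (Ks X r δ N s) := by
    have h1 := (hB.diff N hN).continuousOn
    refine h1.comp (f := fun q : (Fin d → ℝ) × ℝ × ℝ =>
      ((![X.xN N (fun j => q.1 j + η j * Complex.I) s 0,
      X.xN N (fun j => q.1 j + η j * Complex.I) s 1, X.xN N (fun j => q.1 j + η j * Complex.I) s 2,
      Jc X ηJ s q.2.2], q.2.1 + y s * Complex.I) : (Fin 4 → ℂ) × ℂ)) ?_ ?_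
    · refine Continuous.continuousOn ?_
      refine (vec4_cont (c3 0) (c3 1) (c3 2) c4).prodMk (by fun_prop)
    · intro q hq
      exact hb q hq
  exact (((continuous_const.mul (c2.mul c1)).mul continuous_const).continuousOn).mul c5

end

theorem task_BXN : S_BXN := by
  classical
  intro c d X hX r κ K C0 hB δ hδ hx
  obtain ⟨τ2, hτ0, hτδ, hτr⟩ : ∃ τ2 : ℝ, 0 < τ2 ∧ τ2 ≤ δ / 2 ∧ ∀ s : Fin c, τ2 ≤ r / 8 := by
    rcases isEmpty_or_nonempty (Fin c) with h | ⟨⟨s0⟩⟩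
    · exact ⟨δ / 2, by positivity, le_rfl, fun s => (h.false s).elim⟩
    · have hr := (hB s0).r0
      exact ⟨min (δ / 2) (r / 8), lt_min (by positivity) (by positivity), min_le_left _ _,
        fun _ => min_le_right _ _⟩
  set M : ℝ := ∑ s, ∑ i, |(X.q0 s i : ℝ)| with hMdef
  have hM : ∀ s i, |(X.q0 s i : ℝ)| ≤ M := by
    intro s i
    refine (Finset.single_le_sum (f := fun i => |(X.q0 s i : ℝ)|) (fun i _ => abs_nonneg _)
      (Finset.mem_univ i)).trans ?_
    exact Finset.single_le_sum (f := fun s => ∑ i, |(X.q0 s i : ℝ)|)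
      (fun s _ => Finset.sum_nonneg fun i _ => abs_nonneg _) (Finset.mem_univ s)
  refine ⟨max 1 (max ⌈16 / r⌉₊ (max ⌈1 / δ⌉₊ ⌈4 * M / r⌉₊)), τ2, hτ0, ?_⟩
  intro w y ηJ η hy hη N hN
  have hN1 : 0 < N := lt_of_lt_of_le one_pos ((le_max_left _ _).trans hN)
  have hNr : 16 / r ≤ N := (Nat.le_ceil _).trans (by
    exact_mod_cast (le_max_left _ _).trans ((le_max_right _ _).trans hN))
  have hNδ : 1 / δ ≤ N := (Nat.le_ceil _).trans (by
    exact_mod_cast (le_max_left _ _).trans ((le_max_right _ _).trans ((le_max_right _ _).trans hN)))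
  have hNM : 4 * M / r ≤ N := (Nat.le_ceil _).trans (by
    exact_mod_cast (le_max_right _ _).trans ((le_max_right _ _).trans ((le_max_right _ _).trans hN)))
  have hN0 : (0 : ℝ) < N := by exact_mod_cast hN1
  have hb : ∀ s, ∀ q ∈ Ks X r δ N s, ![X.xN N (fun j => q.1 j + η j * Complex.I) s 0,
      X.xN N (fun j => q.1 j + η j * Complex.I) s 1, X.xN N (fun j => q.1 j + η j * Complex.I) s 2,
      Jc X ηJ s q.2.2] ∈ Metric.ball (vC (X.α s)) r ∧
      (q.2.1 + y s * Complex.I : ℂ) ∈ Metric.ball (0 : ℂ) r := fun s q hq =>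
    in_ball X (hB s) hδ (hx s) (hM s) hτδ (hτr s) hN1 hNr hNδ hNM ⟨(hy s).1, (hy s).2.1⟩ (hy s).2.2
      hη hq
  -- the factors
  obtain ⟨g, hg⟩ : ∃ g : Fin c → (Fin d → ℝ) × ℝ × ℝ → ℂ, g = fun s =>
    (Ks X r δ N s).indicator (Fs X N w y ηJ η s) := ⟨_, rfl⟩
  have hgB : ∀ s, BM (g s) := by
    intro s
    rw [hg]
    exact BM.ind (Ks_compact X r δ N s) (Ks_meas X r δ N s) (Fs_cont X (hB s) hN1 w (hy s).1 (hb s))
  have key := abs_fub (fun s : Fin c => X.α s 1 ≠ 0)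
    (fun j : Fin d => volume.restrict (Set.Icc (lo N ⌈(N : ℝ) * (X.τ j - δ)⌉) (hi N ⌊(N : ℝ) * (X.τ j + δ)⌋)))
    (fun s => volume.restrict (Set.Icc (lo N ⌈(N : ℝ) * (X.α s.1 1 - r / 4)⌉)
      (hi N ⌊(N : ℝ) * (X.α s.1 1 + r / 4)⌋)))
    (fun _ : Fin c => volume.restrict (Set.Icc (-th r N) (th r N))) g hgB
  -- the left side
  have hL : ∫ x in X.bx δ N, ∏ s, FZ r N (X.α s) (w s) (y s) (ηJ s)
      (X.xN N (fun j => x j + η j * Complex.I) s) =
      ∫ x, ∏ s, ∫ z, (if h : X.α s 1 ≠ 0 then ∫ j, g s (x, z, j) ∂(volume.restrict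
        (Set.Icc (lo N ⌈(N : ℝ) * (X.α s 1 - r / 4)⌉) (hi N ⌊(N : ℝ) * (X.α s 1 + r / 4)⌋)))
        else g s (x, z, 0)) ∂(volume.restrict (Set.Icc (-th r N) (th r N)))
      ∂(Measure.pi fun j : Fin d => volume.restrict
        (Set.Icc (lo N ⌈(N : ℝ) * (X.τ j - δ)⌉) (hi N ⌊(N : ℝ) * (X.τ j + δ)⌋))) := by
    rw [← Measure.restrict_pi_pi, ← volume_pi]
    refine setIntegral_congr_fun (bx_meas X δ N) fun x hxb => ?_
    refine Finset.prod_congr rfl fun s _ => ?_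
    have hr := (hB s).r0
    have hr16 : r ≤ 1 / 16 := (hB s).r1.trans (by norm_num)
    have hth := (th_bounds hr hr16 hNr).1
    have hNr' : 16 ≤ N * r := by rwa [div_le_iff₀ hr] at hNr
    unfold FZ QZ
    rw [intervalIntegral.integral_of_le (by linarith), ← integral_Icc_eq_integral_Ioc,
      ← integral_const_mul]
    refine setIntegral_congr_fun measurableSet_Icc fun z hz => ?_
    simp only
    by_cases hs : X.α s 1 ≠ 0
    · rw [dif_pos hs]
      have hs' : ¬ X.α s 1 = 0 := hs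
      unfold VB
      rw [if_neg hs', intervalIntegral.integral_of_le (lohi_le hN1 (by linarith)),
        ← integral_Icc_eq_integral_Ioc, ← integral_const_mul]
      simp only [← integral_const_mul, ← integral_mul_const]
      refine setIntegral_congr_fun measurableSet_Icc fun j hj => ?_
      have hmem : (x, z, j) ∈ Ks X r δ N s := by
        refine ⟨hxb, hz, ?_⟩
        show j ∈ IJ X r N s
        unfold IJ
        rw [if_pos hs]
        exact hj
      rw [hg]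
      simp only
      rw [Set.indicator_of_mem hmem]
      unfold Fs Jc
      simp only
      rw [if_neg hs', if_pos hs]
      ring
    · rw [dif_neg hs]
      have hs' : X.α s 1 = 0 := not_not.1 hs
      unfold VB
      rw [if_pos hs']
      have hmem : (x, z, (0 : ℝ)) ∈ Ks X r δ N s := by
        refine ⟨hxb, hz, ?_⟩
        show (0 : ℝ) ∈ IJ X r N s
        unfold IJ
        rw [if_neg hs]
        rfl
      rw [hg]
      simp only
      rw [Set.indicator_of_mem hmem]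
      unfold Fs Jc
      simp only
      rw [if_pos hs', if_neg hs]
      ring
  rw [hL, key]
  -- the right side
  have hBx : X.Bx r δ N = Set.univ.pi (Sum.elim
      (fun j : Fin d => Set.Icc (lo N ⌈(N : ℝ) * (X.τ j - δ)⌉) (hi N ⌊(N : ℝ) * (X.τ j + δ)⌋))
      (Sum.elim (fun s : {s : Fin c // X.α s 1 ≠ 0} => Set.Icc (lo N ⌈(N : ℝ) * (X.α s.1 1 - r / 4)⌉)
        (hi N ⌊(N : ℝ) * (X.α s.1 1 + r / 4)⌋)) (fun _ : Fin c => Set.Icc (-th r N) (th r N)))) := by
    ext u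
    constructor
    · rintro ⟨a1, a2, a3⟩ i _
      rcases i with i | i | i
      · exact a1 i (Set.mem_univ _)
      · exact a2 i
      · exact a3 i
    · intro h
      exact ⟨fun j _ => h (.inl j) (Set.mem_univ _), fun s => h (.inr (.inl s)) (Set.mem_univ _),
        fun s => h (.inr (.inr s)) (Set.mem_univ _)⟩
  have hmeas : Measure.pi (mA (fun s : Fin c => X.α s 1 ≠ 0)
      (fun j : Fin d => volume.restrict (Set.Icc (lo N ⌈(N : ℝ) * (X.τ j - δ)⌉) (hi N ⌊(N : ℝ) * (X.τ j + δ)⌋)))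
      (fun s => volume.restrict (Set.Icc (lo N ⌈(N : ℝ) * (X.α s.1 1 - r / 4)⌉)
      (hi N ⌊(N : ℝ) * (X.α s.1 1 + r / 4)⌋)))
      (fun _ : Fin c => volume.restrict (Set.Icc (-th r N) (th r N)))) =
      (volume : Measure (X.Ix → ℝ)).restrict (X.Bx r δ N) := by
    rw [hBx, volume_pi, Measure.restrict_pi_pi]
    congr 1
    funext i
    rcases i with i | i | i <;> rfl
  rw [hmeas]
  have hBm : MeasurableSet (X.Bx r δ N) := by
    rw [hBx]
    refine MeasurableSet.univ_pi fun i => ?_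
    rcases i with i | i | i <;> exact measurableSet_Icc
  refine setIntegral_congr_fun hBm fun u hu => ?_
  unfold Nw.Pg
  refine Finset.prod_congr rfl fun s _ => ?_
  obtain ⟨a1, a2, a3⟩ := hu
  rw [hg]
  simp only
  by_cases hs : X.α s 1 ≠ 0
  · rw [dif_pos hs]
    have hmem : ((fun i => u (.inl i)), u (.inr (.inr s)), u (.inr (.inl ⟨s, hs⟩))) ∈ Ks X r δ N s := by
      refine ⟨a1, a3 s, ?_⟩
      show u (.inr (.inl ⟨s, hs⟩)) ∈ IJ X r N s
      unfold IJ
      rw [if_pos hs]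
      exact a2 ⟨s, hs⟩
    rw [Set.indicator_of_mem hmem]
    unfold Fs Jc Nw.Jf
    simp only
    rw [if_pos hs, dif_pos hs]
  · rw [dif_neg hs]
    have hmem : ((fun i => u (.inl i)), u (.inr (.inr s)), (0 : ℝ)) ∈ Ks X r δ N s := by
      refine ⟨a1, a3 s, ?_⟩
      show (0 : ℝ) ∈ IJ X r N s
      unfold IJ
      rw [if_neg hs]
      rfl
    rw [Set.indicator_of_mem hmem]
    unfold Fs Jc Nw.Jf
    simp only
    rw [if_neg hs, dif_neg hs]

end Pool.Agent.Q299.HT
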