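import Mathlib

/-!
# Project HT, job BXN: abstract Fubini theorem

Proof by helper299.  `BM` and its lemmas are as in `Pool/Agent/Q208/KN/BOX.lean` (helper208).
-/

set_option autoImplicit false
set_option linter.unusedSectionVars false

namespace Pool.Agent.Q299.HT

open Finset Filter Topology MeasureTheory

/-- bounded and measurable -/
def BM {α : Type} [MeasurableSpace α] (f : α → ℂ) : Prop := Measurable f ∧ ∃ C : ℝ, ∀ x, ‖f x‖ ≤ C

theorem BM.mul {α : Type} [MeasurableSpace α] {f g : α → ℂ} (hf : BM f) (hg : BM g) :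
    BM fun x => f x * g x := by
  obtain ⟨mf, C, hC⟩ := hf
  obtain ⟨mg, D, hD⟩ := hg
  refine ⟨mf.mul mg, |C| * |D|, fun x => ?_⟩
  rw [norm_mul]
  exact mul_le_mul ((hC x).trans (le_abs_self C)) ((hD x).trans (le_abs_self D)) (norm_nonneg _)
    (abs_nonneg _)

theorem BM.one {α : Type} [MeasurableSpace α] : BM (fun _ : α => (1 : ℂ)) :=
  ⟨measurable_const, 1, fun _ => by simp⟩

theorem BM.prod {α κ : Type} [MeasurableSpace α] {s : Finset κ} {f : κ → α → ℂ}
    (hf : ∀ j ∈ s, BM (f j)) : BM fun x => ∏ j ∈ s, f j x := by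
  classical
  induction s using Finset.induction_on with
  | empty => simpa using BM.one
  | insert a s ha ih =>
    have h1 := ih fun j hj => hf j (Finset.mem_insert_of_mem hj)
    have h2 := (hf a (Finset.mem_insert_self a s)).mul h1
    refine ⟨?_, ?_⟩
    · simp only [Finset.prod_insert ha]
      exact h2.1
    · simp only [Finset.prod_insert ha]
      exact h2.2

theorem BM.comp {α β : Type} [MeasurableSpace α] [MeasurableSpace β] {f : β → ℂ} (hf : BM f)
    {m : α → β} (hm : Measurable m) : BM fun x => f (m x) :=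
  ⟨hf.1.comp hm, hf.2.choose, fun _ => hf.2.choose_spec _⟩

theorem BM.integrable {α : Type} [MeasurableSpace α] {f : α → ℂ} (hf : BM f) (μ : Measure α)
    [IsFiniteMeasure μ] : Integrable f μ := by
  obtain ⟨mf, C, hC⟩ := hf
  exact (integrable_const C).mono' mf.aestronglyMeasurable (Eventually.of_forall hC)

theorem BM.ind {α : Type} [MeasurableSpace α] [TopologicalSpace α] [OpensMeasurableSpace α]
    {s : Set α} (hs : IsCompact s) (hs' : MeasurableSet s) {f : α → ℂ} (hf : ContinuousOn f s) :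
    BM (s.indicator f) := by
  classical
  refine ⟨?_, ?_⟩
  · rw [← Set.piecewise_eq_indicator]
    exact hf.measurable_piecewise continuousOn_const hs'
  · obtain ⟨C, hC⟩ := hs.exists_bound_of_continuousOn hf
    refine ⟨max C 0, fun x => ?_⟩
    by_cases hx : x ∈ s
    · rw [Set.indicator_of_mem hx]
      exact (hC x hx).trans (le_max_left _ _)
    · rw [Set.indicator_of_notMem hx, norm_zero]
      exact le_max_right _ _

section
variable {d c : ℕ} (P : Fin c → Prop) [DecidablePred P]

/-- the measure of the second variable -/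
noncomputable def mJ (μ : {s // P s} → Measure ℝ) (s : Fin c) : Measure ℝ :=
  if h : P s then μ ⟨s, h⟩ else Measure.dirac 0

instance mJ_fin (μ : {s // P s} → Measure ℝ) [∀ s, IsFiniteMeasure (μ s)] (s : Fin c) :
    IsFiniteMeasure (mJ P μ s) := by
  unfold mJ
  split_ifs with h <;> infer_instance

/-- the measures -/
noncomputable def mA (lam : Fin d → Measure ℝ) (μ : {s // P s} → Measure ℝ)
    (ν : Fin c → Measure ℝ) : Fin d ⊕ {s // P s} ⊕ Fin c → Measure ℝ :=
  Sum.elim lam (Sum.elim μ ν)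

instance mA_fin (lam : Fin d → Measure ℝ) (μ : {s // P s} → Measure ℝ)
    (ν : Fin c → Measure ℝ) [∀ s, IsFiniteMeasure (lam s)] [∀ s, IsFiniteMeasure (μ s)]
    [∀ s, IsFiniteMeasure (ν s)] (i : Fin d ⊕ {s // P s} ⊕ Fin c) :
    IsFiniteMeasure (mA P lam μ ν i) := by
  rcases i with i | i | i
  · exact inferInstanceAs (IsFiniteMeasure (lam i))
  · exact inferInstanceAs (IsFiniteMeasure (μ i))
  · exact inferInstanceAs (IsFiniteMeasure (ν i))

/-- all variables together -/
def mp (q : (Fin d → ℝ) × (Fin c → ℝ × ℝ)) : Fin d ⊕ {s // P s} ⊕ Fin c → ℝ :=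
  Sum.elim q.1 (Sum.elim (fun s => (q.2 s.1).2) (fun s => (q.2 s).1))

theorem mp_meas : Measurable (mp (d := d) P) := by
  refine measurable_pi_iff.2 fun i => ?_
  rcases i with i | i | i
  · exact (measurable_pi_apply i).comp measurable_fst
  · exact measurable_snd.comp ((measurable_pi_apply i.1).comp measurable_snd)
  · exact measurable_fst.comp ((measurable_pi_apply i).comp measurable_snd)

theorem mp_map (lam : Fin d → Measure ℝ) (μ : {s // P s} → Measure ℝ)
    (ν : Fin c → Measure ℝ) [∀ s, IsFiniteMeasure (lam s)] [∀ s, IsFiniteMeasure (μ s)]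
    [∀ s, IsFiniteMeasure (ν s)] :
    Measure.map (mp P) ((Measure.pi lam).prod (Measure.pi fun s => (ν s).prod (mJ P μ s))) =
      Measure.pi (mA P lam μ ν) := by
  symm
  refine Measure.pi_eq fun S hS => ?_
  have hpre : mp P ⁻¹' Set.univ.pi S = (Set.univ.pi fun i => S (.inl i)) ×ˢ
      (Set.univ.pi fun s : Fin c => S (.inr (.inr s)) ×ˢ
        (if h : P s then S (.inr (.inl ⟨s, h⟩)) else Set.univ)) := by
    ext q
    simp only [Set.mem_preimage, Set.mem_pi, Set.mem_univ, true_implies, Set.mem_prod]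
    constructor
    · intro h
      refine ⟨fun i => h (.inl i), fun s => ⟨h (.inr (.inr s)), ?_⟩⟩
      by_cases hs : P s
      · rw [dif_pos hs]
        exact h (.inr (.inl ⟨s, hs⟩))
      · rw [dif_neg hs]
        exact Set.mem_univ _
    · rintro ⟨h1, h2⟩ i
      rcases i with i | i | i
      · exact h1 i
      · have h3 := (h2 i.1).2
        rw [dif_pos i.2] at h3
        exact h3
      · exact (h2 i).1
  rw [Measure.map_apply (mp_meas P) (MeasurableSet.univ_pi hS), hpre, Measure.prod_prod,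
    Measure.pi_pi, Measure.pi_pi, Fintype.prod_sum_type, Fintype.prod_sum_type]
  simp only [Measure.prod_prod]
  rw [Finset.prod_mul_distrib]
  have h1 : ∀ s : Fin c, (mJ P μ s) (if h : P s then S (.inr (.inl ⟨s, h⟩)) else Set.univ) =
      if h : P s then μ ⟨s, h⟩ (S (.inr (.inl ⟨s, h⟩))) else 1 := by
    intro s
    unfold mJ
    by_cases hs : P s
    · rw [dif_pos hs, dif_pos hs, dif_pos hs]
    · rw [dif_neg hs, dif_neg hs, dif_neg hs]
      simp
  simp only [h1]
  have h2 : ∏ s : Fin c, (if h : P s then μ ⟨s, h⟩ (S (.inr (.inl ⟨s, h⟩))) else 1) =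
      ∏ s : {s // P s}, μ s (S (.inr (.inl s))) := by
    rw [Finset.prod_dite]
    simp only [Finset.prod_const_one, mul_one]
    refine Finset.prod_bij (fun a _ => ⟨a.1, (Finset.mem_filter.1 a.2).2⟩) (fun _ _ => Finset.mem_univ _)
      ?_ ?_ ?_
    · intro a _ b _ hab
      have := congrArg Subtype.val hab
      exact Subtype.ext this
    · intro b _
      exact ⟨⟨b.1, Finset.mem_filter.2 ⟨Finset.mem_univ _, b.2⟩⟩, Finset.mem_attach _ _, rfl⟩
    · intro a _
      rfl
  rw [h2]
  show (∏ i, lam i (S (.inl i))) * ((∏ s, ν s (S (.inr (.inr s)))) * ∏ s, μ s (S (.inr (.inl s)))) =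
    (∏ i, lam i (S (.inl i))) * ((∏ s, μ s (S (.inr (.inl s)))) * ∏ s, ν s (S (.inr (.inr s))))
  ring

/-- **abstract Fubini theorem.** -/
theorem abs_fub (lam : Fin d → Measure ℝ) (μ : {s // P s} → Measure ℝ)
    (ν : Fin c → Measure ℝ) [∀ s, IsFiniteMeasure (lam s)] [∀ s, IsFiniteMeasure (μ s)]
    [∀ s, IsFiniteMeasure (ν s)] (g : Fin c → (Fin d → ℝ) × ℝ × ℝ → ℂ) (hg : ∀ s, BM (g s)) :
    ∫ x, ∏ s, ∫ z, (if h : P s then ∫ j, g s (x, z, j) ∂(μ ⟨s, h⟩) else g s (x, z, 0)) ∂(ν s)
      ∂(Measure.pi lam) =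
    ∫ u, ∏ s, g s (fun i => u (.inl i), u (.inr (.inr s)),
      if h : P s then u (.inr (.inl ⟨s, h⟩)) else 0) ∂(Measure.pi (mA P lam μ ν)) := by
  -- the function which does not depend on the missing variables
  obtain ⟨G, hG⟩ : ∃ G : Fin c → (Fin d → ℝ) × ℝ × ℝ → ℂ, G = fun s q =>
      g s (q.1, q.2.1, if P s then q.2.2 else 0) := ⟨_, rfl⟩
  have hGB : ∀ s, BM (G s) := by
    intro s
    rw [hG]
    refine (hg s).comp (m := fun q : (Fin d → ℝ) × ℝ × ℝ => (q.1, q.2.1, if P s then q.2.2 else 0)) ?_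
    by_cases hs : P s
    · simp only [hs, if_true]
      fun_prop
    · simp only [hs, if_false]
      fun_prop
  have s1 : ∀ x s, ∫ z, (if h : P s then ∫ j, g s (x, z, j) ∂(μ ⟨s, h⟩) else g s (x, z, 0)) ∂(ν s) =
      ∫ p, G s (x, p) ∂((ν s).prod (mJ P μ s)) := by
    intro x s
    have hq : BM fun q : ℝ × ℝ => G s (x, q) := (hGB s).comp (m := fun q : ℝ × ℝ => (x, q)) (by fun_prop)
    rw [integral_prod _ (hq.integrable _)]
    refine integral_congr_ae (Eventually.of_forall fun z => ?_)
    simp only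
    by_cases hs : P s
    · rw [dif_pos hs]
      unfold mJ
      rw [dif_pos hs, hG]
      simp only [hs, if_true]
    · rw [dif_neg hs]
      unfold mJ
      rw [dif_neg hs, integral_dirac, hG]
      simp only [hs, if_false]
  simp only [s1]
  have s2 : ∀ x, ∏ s, ∫ p, G s (x, p) ∂((ν s).prod (mJ P μ s)) =
      ∫ p : Fin c → ℝ × ℝ, ∏ s, G s (x, p s) ∂(Measure.pi fun s => (ν s).prod (mJ P μ s)) := by
    intro x
    exact (integral_fintype_prod_eq_prod (𝕜 := ℂ) (μ := fun s => (ν s).prod (mJ P μ s))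
      (f := fun s p => G s (x, p))).symm
  simp only [s2]
  have hH : BM fun q : (Fin d → ℝ) × (Fin c → ℝ × ℝ) => ∏ s, G s (q.1, q.2 s) := by
    refine BM.prod fun s _ => ?_
    exact (hGB s).comp (m := fun q : (Fin d → ℝ) × (Fin c → ℝ × ℝ) => (q.1, q.2 s)) (by fun_prop)
  have s3 := integral_prod (μ := Measure.pi lam) (ν := Measure.pi fun s => (ν s).prod (mJ P μ s))
    (fun q : (Fin d → ℝ) × (Fin c → ℝ × ℝ) => ∏ s, G s (q.1, q.2 s)) (hH.integrable _)
  simp only at s3
  rw [← s3, ← mp_map P lam μ ν, integral_map (mp_meas P).aemeasurable]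
  · refine integral_congr_ae (Eventually.of_forall fun q => ?_)
    simp only
    refine Finset.prod_congr rfl fun s _ => ?_
    rw [hG]
    simp only [mp, Sum.elim_inl, Sum.elim_inr]
    congr 3
  · refine Measurable.aestronglyMeasurable ?_
    have : BM fun u : Fin d ⊕ {s // P s} ⊕ Fin c → ℝ => ∏ s, g s (fun i => u (.inl i), u (.inr (.inr s)),
      if h : P s then u (.inr (.inl ⟨s, h⟩)) else 0) := by
      refine BM.prod fun s _ => ?_
      refine (hg s).comp (m := fun u : Fin d ⊕ {s // P s} ⊕ Fin c → ℝ => (fun i => u (.inl i),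
        u (.inr (.inr s)), if h : P s then u (.inr (.inl ⟨s, h⟩)) else 0)) ?_
      by_cases hs : P s
      · simp only [hs, dif_pos]
        fun_prop
      · have h1 : (fun u : Fin d ⊕ {s // P s} ⊕ Fin c → ℝ => (((fun i => u (.inl i)),
            u (.inr (.inr s)), if h : P s then u (.inr (.inl ⟨s, h⟩)) else 0) :
            (Fin d → ℝ) × ℝ × ℝ)) = fun u => ((fun i => u (.inl i)), u (.inr (.inr s)), 0) := by
          funext u
          rw [dif_neg hs]
        rw [h1]
        fun_prop
    exact this.1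

end

end Pool.Agent.Q299.HT
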