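import Pool.Agent.Q299.HT.SDNC

/-!
# Project HT, job NW0: the corners of the lattice points

Proof by helper299.
-/

set_option autoImplicit false

namespace Pool.Agent.Q299.HT

open Finset Filter Topology
open Pool.Agent.Q99.HT

/-- products of close factors -/
theorem prod_diff {ι : Type} (S : Finset ι) (Z F : ι → ℂ) (P : ι → ℝ) {D : ℝ} (hD : 0 ≤ D)
    (h : ∀ s ∈ S, ‖Z s‖ ≤ P s ∧ ‖F s‖ ≤ P s ∧ ‖Z s - F s‖ ≤ D * P s) :
    ‖∏ s ∈ S, Z s - ∏ s ∈ S, F s‖ ≤ S.card * D * ∏ s ∈ S, P s := by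
  classical
  induction S using Finset.induction_on with
  | empty => simp
  | insert a S ha ih =>
    have h1 := ih fun s hs => h s (Finset.mem_insert_of_mem hs)
    obtain ⟨h2, h3, h4⟩ := h a (Finset.mem_insert_self a S)
    have hP : 0 ≤ P a := (norm_nonneg _).trans h2
    have hPS : ∀ s ∈ S, 0 ≤ P s := fun s hs =>
      (norm_nonneg _).trans (h s (Finset.mem_insert_of_mem hs)).1
    have hPp : 0 ≤ ∏ s ∈ S, P s := Finset.prod_nonneg hPS
    have h5 : ‖∏ s ∈ S, Z s‖ ≤ ∏ s ∈ S, P s := by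
      rw [norm_prod]
      exact Finset.prod_le_prod (fun _ _ => norm_nonneg _) fun s hs =>
        (h s (Finset.mem_insert_of_mem hs)).1
    rw [Finset.prod_insert ha, Finset.prod_insert ha, Finset.prod_insert ha,
      Finset.card_insert_of_notMem ha]
    have h6 : Z a * ∏ s ∈ S, Z s - F a * ∏ s ∈ S, F s =
        (Z a - F a) * ∏ s ∈ S, Z s + F a * (∏ s ∈ S, Z s - ∏ s ∈ S, F s) := by ring
    rw [h6]
    refine (norm_add_le _ _).trans ?_
    rw [norm_mul, norm_mul]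
    have h7 : ‖Z a - F a‖ * ‖∏ s ∈ S, Z s‖ ≤ (D * P a) * ∏ s ∈ S, P s :=
      mul_le_mul h4 h5 (norm_nonneg _) (by positivity)
    have h8 : ‖F a‖ * ‖∏ s ∈ S, Z s - ∏ s ∈ S, F s‖ ≤ P a * (S.card * D * ∏ s ∈ S, P s) :=
      mul_le_mul h3 h1 (norm_nonneg _) hP
    push_cast
    linarith

section
variable {c d : ℕ} (X : Nw c d)

/-- the real corners -/
noncomputable def qR (N : ℕ) (y : Fin d → ℝ) (s : Fin c) (i : Fin 3) : ℝ :=
  (1 - 1 / N) * X.q0 s i + latR X y s i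

theorem qR_int {N : ℕ} (hN : 0 < N) (t : Fin d → ℤ) (s : Fin c) (i : Fin 3) :
    (X.q N t s i : ℝ) / N = qR X N (fun j => (t j : ℝ) / N) s i := by
  have hN0 : (N : ℝ) ≠ 0 := by exact_mod_cast hN.ne'
  unfold qR latR Nw.q
  push_cast
  rw [add_div, Finset.sum_div]
  congr 1
  · field_simp
  · refine Finset.sum_congr rfl fun j _ => ?_
    ring

theorem xN_int {N : ℕ} (hN : 0 < N) (t : Fin d → ℤ) (s : Fin c) :
    X.xN N (fun j => (t j : ℂ) / N) s = fun i => (X.q N t s i : ℂ) / N := by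
  have hN0 : (N : ℂ) ≠ 0 := by exact_mod_cast hN.ne'
  funext i
  unfold Nw.xN Nw.q
  push_cast
  rw [add_div, Finset.sum_div]
  congr 1
  · field_simp
  · refine Finset.sum_congr rfl fun j _ => ?_
    ring

theorem xN_re (N : ℕ) (T : Fin d → ℂ) (s : Fin c) (i : Fin 3) :
    (X.xN N T s i).re = qR X N (fun j => (T j).re) s i := by
  unfold Nw.xN qR latR
  rw [Complex.add_re, Complex.re_sum]
  have h1 : ((1 - 1 / (N : ℂ)) * (X.q0 s i : ℂ)) = (((1 - 1 / (N : ℝ)) * X.q0 s i : ℝ) : ℂ) := by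
    push_cast
    rfl
  rw [h1, Complex.ofReal_re]
  congr 1
  refine Finset.sum_congr rfl fun j _ => ?_
  rw [← Complex.ofReal_intCast, Complex.re_mul_ofReal]

theorem xN_im (N : ℕ) (T : Fin d → ℂ) (s : Fin c) (i : Fin 3) :
    (X.xN N T s i).im = latR X (fun j => (T j).im) s i := by
  unfold Nw.xN latR
  rw [Complex.add_im, Complex.im_sum]
  have h1 : ((1 - 1 / (N : ℂ)) * (X.q0 s i : ℂ)) = (((1 - 1 / (N : ℝ)) * X.q0 s i : ℝ) : ℂ) := by
    push_cast
    rfl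
  rw [h1, Complex.ofReal_im, zero_add]
  refine Finset.sum_congr rfl fun j _ => ?_
  rw [← Complex.ofReal_intCast, Complex.im_mul_ofReal]

theorem qR_sub (hX : X.Ok) (N : ℕ) (y : Fin d → ℝ) (s : Fin c) (i : Fin 3) :
    qR X N y s i - qc (X.α s) i = latR X (fun j => y j - X.τ j) s i - X.q0 s i / N := by
  unfold qR latR
  rw [hX.ctr s i]
  simp only [sub_mul, Finset.sum_sub_distrib]
  ring

theorem latR_abs (y : Fin d → ℝ) {a : ℝ} (ha : 0 ≤ a) (hy : ∀ j, |y j| ≤ a) (s : Fin c) (i : Fin 3) :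
    |latR X y s i| ≤ ME X * a := by
  unfold latR
  refine (Finset.abs_sum_le_sum_abs _ _).trans ?_
  have h1 : ∀ j ∈ Finset.univ, |y j * (X.E j s i : ℝ)| ≤ |(X.E j s i : ℝ)| * a := by
    intro j _
    rw [abs_mul, mul_comm]
    exact mul_le_mul_of_nonneg_left (hy j) (abs_nonneg _)
  refine (Finset.sum_le_sum h1).trans ?_
  rw [← Finset.sum_mul]
  exact mul_le_mul_of_nonneg_right (sum_E_le X s i) ha

/-- constants -/
noncomputable def m0 : ℝ := ∑ s, ∑ i, ml (X.α s) i * X.q0 s i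
noncomputable def Q0 : ℝ := ∑ s, ∑ i, (X.q0 s i : ℝ) ^ 2

theorem Q0_nonneg : 0 ≤ Q0 X :=
  Finset.sum_nonneg fun _ _ => Finset.sum_nonneg fun _ _ => sq_nonneg _

theorem sum_mR (hX : X.Ok) (N : ℕ) (y : Fin d → ℝ) :
    ∑ s, mR (X.α s) (qR X N y s) = -(m0 X / N) := by
  unfold mR m0
  have h1 : ∀ s, ∑ i, ml (X.α s) i * (qR X N y s i - qc (X.α s) i) =
      ∑ j, (y j - X.τ j) * ∑ i, ml (X.α s) i * X.E j s i - (∑ i, ml (X.α s) i * X.q0 s i) / N := by
    intro s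
    have h2 : ∀ i, ml (X.α s) i * (qR X N y s i - qc (X.α s) i) =
        ∑ j, (y j - X.τ j) * (ml (X.α s) i * X.E j s i) - ml (X.α s) i * X.q0 s i / N := by
      intro i
      rw [qR_sub X hX]
      unfold latR
      rw [mul_sub, Finset.mul_sum]
      congr 1
      · refine Finset.sum_congr rfl fun j _ => ?_
        ring
      · ring
    simp only [h2]
    rw [Finset.sum_sub_distrib, Finset.sum_comm, Finset.sum_div]
    congr 1
    refine Finset.sum_congr rfl fun j _ => ?_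
    rw [Finset.mul_sum]
  simp only [h1]
  rw [Finset.sum_sub_distrib, Finset.sum_comm, ← Finset.sum_div]
  have h3 : ∑ j, ∑ s, (y j - X.τ j) * ∑ i, ml (X.α s) i * X.E j s i = 0 := by
    refine Finset.sum_eq_zero fun j _ => ?_
    rw [← Finset.mul_sum, hX.crit j, mul_zero]
  rw [h3, zero_sub]

theorem sum_sR (hX : X.Ok) {κ1 : ℝ}
    (hlat : ∀ t : Fin d → ℝ, κ1 * ∑ j, t j ^ 2 ≤ ∑ s, ∑ i, latR X t s i ^ 2) (N : ℕ)
    (y : Fin d → ℝ) : κ1 / 2 * ∑ j, (y j - X.τ j) ^ 2 - Q0 X / N ^ 2 ≤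
      ∑ s, sR (X.α s) (qR X N y s) := by
  unfold sR Q0
  have h1 : ∀ s i, latR X (fun j => y j - X.τ j) s i ^ 2 / 2 - (X.q0 s i : ℝ) ^ 2 / N ^ 2 ≤
      (qR X N y s i - qc (X.α s) i) ^ 2 := by
    intro s i
    rw [qR_sub X hX]
    have h2 := sq_nonneg (latR X (fun j => y j - X.τ j) s i - 2 * (X.q0 s i / N))
    have h3 : (X.q0 s i : ℝ) ^ 2 / N ^ 2 = (X.q0 s i / N) ^ 2 := by rw [div_pow]
    rw [h3]
    nlinarith
  have h2 : ∑ s, ∑ i, (latR X (fun j => y j - X.τ j) s i ^ 2 / 2 - (X.q0 s i : ℝ) ^ 2 / N ^ 2) ≤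
      ∑ s, ∑ i, (qR X N y s i - qc (X.α s) i) ^ 2 :=
    Finset.sum_le_sum fun s _ => Finset.sum_le_sum fun i _ => h1 s i
  refine le_trans ?_ h2
  simp only [Finset.sum_sub_distrib, ← Finset.sum_div]
  have h3 := hlat fun j => y j - X.τ j
  linarith

/-- the corners vanish where the centre does -/
theorem q_compat (hX : X.Ok) (N : ℕ) (t : Fin d → ℤ) (s : Fin c) (i : Fin 3)
    (h : qc (X.α s) i = 0) : X.q N t s i = 0 := by
  obtain ⟨h1, h2⟩ := hX.zer s i h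
  unfold Nw.q
  rw [h1, mul_zero, zero_add]
  exact Finset.sum_eq_zero fun j _ => by rw [h2 j, mul_zero]

theorem xN_compat (hX : X.Ok) (N : ℕ) (T : Fin d → ℂ) (s : Fin c) (i : Fin 3)
    (h : qc (X.α s) i = 0) : X.xN N T s i = 0 := by
  obtain ⟨h1, h2⟩ := hX.zer s i h
  unfold Nw.xN
  rw [h1, Int.cast_zero, mul_zero, zero_add]
  exact Finset.sum_eq_zero fun j _ => by rw [h2 j, Int.cast_zero, mul_zero]

/-- the possible lattice points are in a box -/
theorem ps_box (hX : X.Ok) {κ1 : ℝ} (hκ0 : 0 < κ1)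
    (hlat : ∀ t : Fin d → ℝ, κ1 * ∑ j, t j ^ 2 ≤ ∑ s, ∑ i, latR X t s i ^ 2) :
    ∃ B : ℕ, 1 ≤ B ∧ ∀ N : ℕ, 0 < N → ∀ t : Fin d → ℤ, (∀ s, Ps N (X.q N t s)) →
      ∀ j, |t j| ≤ (B * N : ℕ) := by
  set R : ℝ := ∑ s, ∑ i, (1 + |(X.q0 s i : ℝ)|) ^ 2 with hR
  have hR0 : 0 ≤ R := Finset.sum_nonneg fun _ _ => Finset.sum_nonneg fun _ _ => sq_nonneg _
  refine ⟨⌈R / κ1⌉₊ + 1, by omega, fun N hN t ht j => ?_⟩
  have hN0 : (0 : ℝ) < N := by exact_mod_cast hN
  have h1 := hlat fun j => (t j : ℝ) / N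
  have h2 : ∑ s, ∑ i, latR X (fun j => (t j : ℝ) / N) s i ^ 2 ≤ R := by
    refine Finset.sum_le_sum fun s _ => Finset.sum_le_sum fun i _ => ?_
    refine sq_le_sq' ?_ ?_ <;>
    · have h3 := qR_int X hN t s i
      unfold qR at h3
      have hq : 0 ≤ X.q N t s i ∧ X.q N t s i < N := by
        obtain ⟨a0, a1, a2, a3⟩ := ht s
        fin_cases i
        · exact ⟨a0, by show X.q N t s 0 < N; omega⟩
        · exact ⟨a1, by show X.q N t s 1 < N; omega⟩
        · exact ⟨a2, by show X.q N t s 2 < N; omega⟩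
      have h4 : 0 ≤ (X.q N t s i : ℝ) / N := by
        have : (0 : ℝ) ≤ (X.q N t s i : ℝ) := by exact_mod_cast hq.1
        positivity
      have h5 : (X.q N t s i : ℝ) / N ≤ 1 := by
        rw [div_le_one hN0]
        exact_mod_cast hq.2.le
      have h6 : |(1 - 1 / (N : ℝ)) * (X.q0 s i : ℝ)| ≤ |(X.q0 s i : ℝ)| := by
        rw [abs_mul]
        refine mul_le_of_le_one_left (abs_nonneg _) ?_
        have h7 : 1 / (N : ℝ) ≤ 1 := by
          rw [div_le_one hN0]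
          exact_mod_cast hN
        have h8 : 0 ≤ 1 / (N : ℝ) := by positivity
        rw [abs_le]
        constructor <;> linarith
      have h7 := abs_le.1 h6
      linarith [h7.1, h7.2]
  have h3 : ((t j : ℝ) / N) ^ 2 ≤ R / κ1 := by
    rw [le_div_iff₀ hκ0]
    have h4 : ((t j : ℝ) / N) ^ 2 ≤ ∑ j, ((t j : ℝ) / N) ^ 2 :=
      Finset.single_le_sum (f := fun j => ((t j : ℝ) / N) ^ 2) (fun _ _ => sq_nonneg _)
        (Finset.mem_univ j)
    nlinarith
  have h4 : R / κ1 ≤ ⌈R / κ1⌉₊ := Nat.le_ceil _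
  have h5 : |(t j : ℝ) / N| ≤ ((⌈R / κ1⌉₊ + 1 : ℕ) : ℝ) := by
    refine abs_le_of_sq_le_sq ?_ (by positivity)
    push_cast
    have : (0 : ℝ) ≤ ⌈R / κ1⌉₊ := Nat.cast_nonneg _
    nlinarith
  rw [abs_div, abs_of_pos hN0, div_le_iff₀ hN0] at h5
  exact_mod_cast h5

/-- the product of the weights along the network -/
theorem LD_prod (F : Fin c → (Fin 3 → ℂ) → ℂ) {r : ℝ}
    (hF : ∀ s, LD (F s) (Metric.ball (qC (X.α s)) r)) (N : ℕ) :
    LD (fun T : Fin d → ℂ => ∏ s, F s (X.xN N T s))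
      {T | ∀ s, X.xN N T s ∈ Metric.ball (qC (X.α s)) r} := by
  have hc : ∀ s, Continuous fun T : Fin d → ℂ => X.xN N T s := by
    intro s
    refine continuous_pi fun i => ?_
    unfold Nw.xN
    fun_prop
  constructor
  · refine continuousOn_finsetProd _ fun s _ => ?_
    exact (hF s).1.comp (hc s).continuousOn fun T hT => hT s
  · intro T hT u
    refine DifferentiableAt.fun_finsetProd fun s _ => ?_
    have h1 := (hF s).2 (X.xN N T s) (hT s) (fun i => ∑ j, u j * X.E j s i)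
    have h2 : (fun t : ℂ => F s (X.xN N (T + t • u) s)) =
        fun t : ℂ => F s (X.xN N T s + t • (fun i => ∑ j, u j * (X.E j s i : ℂ))) := by
      funext t
      congr 1
      funext i
      unfold Nw.xN
      simp only [Pi.add_apply, Pi.smul_apply, smul_eq_mul, add_mul, Finset.sum_add_distrib,
        Finset.mul_sum, mul_assoc, add_assoc]
    rw [h2]
    exact h1

theorem U_open (N : ℕ) (r : ℝ) :
    IsOpen {T : Fin d → ℂ | ∀ s, X.xN N T s ∈ Metric.ball (qC (X.α s)) r} := by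
  have hc : ∀ s, Continuous fun T : Fin d → ℂ => X.xN N T s := by
    intro s
    refine continuous_pi fun i => ?_
    unfold Nw.xN
    fun_prop
  rw [Set.ofPred_forall]
  exact isOpen_iInter_of_finite fun s => Metric.isOpen_ball.preimage (hc s)

end

end Pool.Agent.Q299.HT
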