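import Pool.Agent.Q299.HT.SDND

/-!
# Project HT, job SDN: the theorem

Proof by helper299.
-/

set_option autoImplicit false

namespace Pool.Agent.Q299.HT

open Finset Filter Topology ComplexConjugate
open Pool.Agent.Q99.HT
open Pool.Agent.Q99.KN (S_LC)

section
variable {c d : ℕ} (X : Nw c d)

theorem pi_sq_le (h : X.Ix → ℂ) : ‖h‖ ^ 2 ≤ ∑ i, ‖h i‖ ^ 2 := by
  have h0 : 0 ≤ ∑ i, ‖h i‖ ^ 2 := Finset.sum_nonneg fun _ _ => sq_nonneg _
  have h1 : ‖h‖ ≤ √(∑ i, ‖h i‖ ^ 2) := by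
    rw [pi_norm_le_iff_of_nonneg (Real.sqrt_nonneg _)]
    intro i
    refine Real.le_sqrt_of_sq_le ?_
    exact Finset.single_le_sum (f := fun i => ‖h i‖ ^ 2) (fun _ _ => sq_nonneg _) (Finset.mem_univ i)
  calc ‖h‖ ^ 2 ≤ √(∑ i, ‖h i‖ ^ 2) ^ 2 := pow_le_pow_left₀ (norm_nonneg _) h1 2
    _ = _ := Real.sq_sqrt h0

theorem exists_crit (hX : X.Ok) {r κ K C0 κ1 ρ Wm : ℝ} (hκ : 0 < κ)
    (hB : ∀ s, Blk (X.α s) r κ K C0) (hκ0 : 0 < κ1)
    (hκ1 : κ1 ≤ 1) (hlat : ∀ t : Fin d → ℝ, κ1 * ∑ j, t j ^ 2 ≤ ∑ s, ∑ i, latR X t s i ^ 2)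
    (hρ : 0 < ρ) (hρr : ME X * ρ ≤ r) (w : Fin c → ℤ) (hW1 : 1 ≤ Wm) (hWρ : 8 / ρ ≤ Wm)
    (hW2 : 8 * Fintype.card X.Ix * (c * (|C0| * (ME X + 1) ^ 2)) / (2 * κ * κ1 * ρ) ≤ Wm)
    (hw : ∀ s, Wm ≤ |(w s : ℝ)|) :
    ∃ u : X.Ix → ℂ, NR X ρ u ∧ (∀ k, gW X w u k = 0) ∧ ‖u - uC X‖ ≤
      (2 * Fintype.card X.Ix * (c * (|C0| * (ME X + 1) ^ 2)) / (2 * κ * κ1) + 2) / Wm := by
  classical
  set MB : ℝ := c * (|C0| * (ME X + 1) ^ 2) with hMB
  have hMB0 : 0 ≤ MB := by positivity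
  set m : ℝ := 2 * κ * κ1 with hm
  have hm0 : 0 < m := by positivity
  set n : ℝ := (Fintype.card X.Ix : ℝ) with hn
  have hn0 : 0 ≤ n := Nat.cast_nonneg _
  have hWm : 0 < Wm := by linarith
  have hws : ∀ s, w s ≠ 0 := by
    intro s h0
    have := hw s
    rw [h0] at this
    simp at this
    linarith
  have hu0 : ‖u0 X w - uC X‖ ≤ 2 / Wm := u0_near X hW1 hw
  have h2W : 2 / Wm ≤ ρ / 4 := by
    rw [div_le_iff₀ hρ] at hWρ
    rw [div_le_div_iff₀ hWm (by norm_num)]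
    linarith
  have hreg : ∀ u : X.Ix → ℂ, ∑ i, ‖u i - u0 X w i‖ ^ 2 ≤ (ρ / 2) ^ 2 → NR X ρ u := by
    intro u hu i
    have h1 : ‖u i - u0 X w i‖ ≤ ρ / 2 := by
      refine (sq_le_sq₀ (norm_nonneg _) (by positivity)).1 (le_trans ?_ hu)
      exact Finset.single_le_sum (f := fun i => ‖u i - u0 X w i‖ ^ 2) (fun _ _ => sq_nonneg _)
        (Finset.mem_univ i)
    have h2 : ‖u0 X w i - uC X i‖ ≤ ρ / 4 := (norm_le_pi_norm (u0 X w - uC X) i).trans (hu0.trans h2W)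
    have h3 : u i - uC X i = (u i - u0 X w i) + (u0 X w i - uC X i) := by ring
    rw [h3]
    refine (norm_add_le _ _).trans_lt ?_
    linarith
  have hu0R : NR X ρ (u0 X w) := by
    refine hreg _ ?_
    simp only [sub_self, norm_zero]
    have : (∑ _i : X.Ix, (0 : ℝ) ^ 2) = 0 := by simp
    rw [this]
    positivity
  have huCR := NR_uC X hρ
  set G : (X.Ix → ℂ) → X.Ix → ℂ := fun u i => gW X w u (bs X i) with hG
  set L1 : ℝ := MB + ∑ s, Real.pi * |(w s : ℝ)| / 2 with hL1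
  have hL10 : 0 ≤ L1 := by
    have : 0 ≤ ∑ s, Real.pi * |(w s : ℝ)| / 2 :=
      Finset.sum_nonneg fun _ _ => by have := Real.pi_pos; positivity
    linarith
  have hcj : ∀ u v : X.Ix → ℂ, ∑ i, conj (u i - v i) * (G u i - G v i) =
      gW X w u (cj X (u - v)) - gW X w v (cj X (u - v)) := by
    intro u v
    rw [gW_sum X w u, gW_sum X w v, ← Finset.sum_sub_distrib]
    refine Finset.sum_congr rfl fun i _ => ?_
    show conj (u i - v i) * (G u i - G v i) = conj ((u - v) i) * gW X w u (bs X i) -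
      conj ((u - v) i) * gW X w v (bs X i)
    rw [hG]
    simp only [Pi.sub_apply]
    ring
  have hG0 : ∀ i, ‖G (u0 X w) i‖ ≤ 2 * MB / Wm := by
    intro i
    have h1 := gP_lip X hX hB hρ hρr hu0R huCR (bs X i)
    rw [gP_uC X hX hB, sub_zero] at h1
    rw [hG]
    simp only
    rw [gW_u0 X hws]
    refine h1.trans ?_
    calc MB * ‖u0 X w - uC X‖ * ‖bs X i‖ ≤ MB * (2 / Wm) * 1 :=
          mul_le_mul (mul_le_mul_of_nonneg_left hu0 hMB0) (bs_norm X i) (norm_nonneg _) (by positivity)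
      _ = 2 * MB / Wm := by ring
  have hlip : ∀ u v : X.Ix → ℂ, ∑ i, ‖u i - u0 X w i‖ ^ 2 ≤ (ρ / 2) ^ 2 →
      ∑ i, ‖v i - u0 X w i‖ ^ 2 ≤ (ρ / 2) ^ 2 →
      ∑ i, ‖G u i - G v i‖ ^ 2 ≤ (n * L1 + 1) ^ 2 * ∑ i, ‖u i - v i‖ ^ 2 := by
    intro u v hu hv
    have h1 := hreg u hu
    have h2 := hreg v hv
    have h3 : ∀ i ∈ Finset.univ, ‖G u i - G v i‖ ^ 2 ≤ L1 ^ 2 * ‖u - v‖ ^ 2 := by
      intro i _
      rw [← mul_pow]
      exact pow_le_pow_left₀ (norm_nonneg _)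
        (gW_lip X hX hB hρ hρr w h1 h2 (bs X i) (bs_norm X i)) 2
    refine (Finset.sum_le_sum h3).trans ?_
    rw [Finset.sum_const, Finset.card_univ, nsmul_eq_mul]
    have h4 : ‖u - v‖ ^ 2 ≤ ∑ i, ‖u i - v i‖ ^ 2 := pi_sq_le X (u - v)
    have h5 : n * L1 ^ 2 ≤ (n * L1 + 1) ^ 2 := by
      have h6 : n ≤ n ^ 2 := by
        rw [hn]
        exact_mod_cast Nat.le_self_pow two_ne_zero _
      have h7 : n * L1 ^ 2 ≤ n ^ 2 * L1 ^ 2 := mul_le_mul_of_nonneg_right h6 (sq_nonneg _)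
      have h8 : 0 ≤ n * L1 := by positivity
      linarith [sq_nonneg (n * L1), mul_pow n L1 2, add_sq (n * L1) 1]
    calc n * (L1 ^ 2 * ‖u - v‖ ^ 2) = (n * L1 ^ 2) * ‖u - v‖ ^ 2 := by ring
      _ ≤ (n * L1 + 1) ^ 2 * ∑ i, ‖u i - v i‖ ^ 2 :=
          mul_le_mul h5 h4 (sq_nonneg _) (sq_nonneg _)
  have hmon : ∀ u v : X.Ix → ℂ, ∑ i, ‖u i - u0 X w i‖ ^ 2 ≤ (ρ / 2) ^ 2 →
      ∑ i, ‖v i - u0 X w i‖ ^ 2 ≤ (ρ / 2) ^ 2 →
      (∑ i, conj (u i - v i) * (G u i - G v i)).re ≤ -m * ∑ i, ‖u i - v i‖ ^ 2 := by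
    intro u v hu hv
    rw [hcj]
    exact gW_mono X hX hκ hB hκ1 hlat hρ hρr w (hreg u hu) (hreg v hv)
  have hst : ∑ i, ‖G (u0 X w) i‖ ^ 2 ≤ (m * (ρ / 2) / 2) ^ 2 := by
    have h1 : ∑ i, ‖G (u0 X w) i‖ ^ 2 ≤ n * (2 * MB / Wm) ^ 2 := by
      calc ∑ i, ‖G (u0 X w) i‖ ^ 2 ≤ ∑ _i : X.Ix, (2 * MB / Wm) ^ 2 :=
            Finset.sum_le_sum fun i _ => pow_le_pow_left₀ (norm_nonneg _) (hG0 i) 2
        _ = n * (2 * MB / Wm) ^ 2 := by
            rw [Finset.sum_const, Finset.card_univ, nsmul_eq_mul]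
    refine h1.trans ?_
    have h6 : n ≤ n ^ 2 := by
      rw [hn]
      exact_mod_cast Nat.le_self_pow two_ne_zero _
    have h7 : n * (2 * MB / Wm) ^ 2 ≤ (n * (2 * MB / Wm)) ^ 2 := by
      rw [mul_pow]
      exact mul_le_mul_of_nonneg_right h6 (sq_nonneg _)
    refine h7.trans (pow_le_pow_left₀ (by positivity) ?_ 2)
    rw [div_le_iff₀ (by positivity)] at hW2
    rw [← mul_div_assoc, div_le_iff₀ hWm]
    linarith
  obtain ⟨u, hu1, hu2⟩ := mono_zero G (u0 X w) (R := ρ / 2) (m := m) (L := n * L1 + 1)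
    (by positivity) hm0 (by positivity) hlip hmon hst
  have huR := hreg u hu1
  have hz : ∀ k, gW X w u k = 0 := by
    intro k
    rw [gW_sum]
    refine Finset.sum_eq_zero fun i _ => ?_
    have := hu2 i
    rw [hG] at this
    simp only at this
    rw [this, mul_zero]
  refine ⟨u, huR, hz, ?_⟩
  -- the distance
  have h1 := gW_mono X hX hκ hB hκ1 hlat hρ hρr w huR hu0R
  rw [← hcj] at h1
  have h2 := pi_sq_le X (u - u0 X w)
  have h3 : -(∑ i, conj (u i - u0 X w i) * (G u i - G (u0 X w) i)).re ≤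
      n * (‖u - u0 X w‖ * (2 * MB / Wm)) := by
    refine (neg_le_abs _).trans ((Complex.abs_re_le_norm _).trans ((norm_sum_le _ _).trans ?_))
    calc ∑ i, ‖conj (u i - u0 X w i) * (G u i - G (u0 X w) i)‖
        ≤ ∑ _i : X.Ix, ‖u - u0 X w‖ * (2 * MB / Wm) := by
          refine Finset.sum_le_sum fun i _ => ?_
          rw [hu2 i, zero_sub, norm_mul, Complex.norm_conj, norm_neg]
          exact mul_le_mul (norm_le_pi_norm (u - u0 X w) i) (hG0 i) (norm_nonneg _) (norm_nonneg _)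
      _ = n * (‖u - u0 X w‖ * (2 * MB / Wm)) := by
          rw [Finset.sum_const, Finset.card_univ, nsmul_eq_mul]
  have h4 : m * ‖u - u0 X w‖ ^ 2 ≤ n * (‖u - u0 X w‖ * (2 * MB / Wm)) := by
    have h5 : m * ‖u - u0 X w‖ ^ 2 ≤ m * ∑ i, ‖(u - u0 X w) i‖ ^ 2 :=
      mul_le_mul_of_nonneg_left h2 hm0.le
    linarith
  have h6 : ‖u - u0 X w‖ ≤ 2 * n * MB / m / Wm := by
    rcases (norm_nonneg (u - u0 X w)).eq_or_lt with h7 | h7
    · rw [← h7]
      positivity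
    · have h8 : m * ‖u - u0 X w‖ ≤ n * (2 * MB / Wm) := by
        have : ‖u - u0 X w‖ * (m * ‖u - u0 X w‖) ≤ ‖u - u0 X w‖ * (n * (2 * MB / Wm)) := by
          linarith
        exact le_of_mul_le_mul_left this h7
      have h9 : ‖u - u0 X w‖ ≤ n * (2 * MB / Wm) / m := by
        rw [le_div_iff₀ hm0, mul_comm]
        exact h8
      refine h9.trans (le_of_eq ?_)
      ring
  have h10 : u - uC X = (u - u0 X w) + (u0 X w - uC X) := by abel
  rw [h10]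
  refine (norm_add_le _ _).trans ?_
  rw [add_div]
  exact add_le_add h6 hu0

end

theorem exists_min {c : ℕ} (f : Fin c → ℝ) (hf : ∀ s, 0 < f s) {a : ℝ} (ha : 0 < a) :
    ∃ b : ℝ, 0 < b ∧ b ≤ a ∧ ∀ s, b ≤ f s := by
  induction c with
  | zero => exact ⟨a, ha, le_rfl, fun s => s.elim0⟩
  | succ c ih =>
    obtain ⟨b, h1, h2, h3⟩ := ih (fun s => f s.succ) fun s => hf _
    refine ⟨min b (f 0), lt_min h1 (hf 0), (min_le_left _ _).trans h2, fun s => ?_⟩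
    refine Fin.cases ?_ (fun s => ?_) s
    · exact min_le_right _ _
    · exact (min_le_left _ _).trans (h3 s)

theorem task_SDN : S_SDN := by
  classical
  intro hLC hLTd hZZ c d X hX r κ K C0 hB
  rcases Nat.eq_zero_or_pos c with rfl | hc
  · -- no region
    have hd : IsEmpty (Fin d) := by
      refine ⟨fun j => ?_⟩
      have h1 := hX.inj (Pi.single j 1) (fun s => s.elim0)
      have h2 := congrFun h1 j
      simp at h2
    refine ⟨1, one_pos, fun ρ hρ _ => ⟨1, 0, le_rfl, fun w Wm hW _ => ?_⟩⟩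
    refine ⟨fun j => (hd.false j).elim, fun s => s.elim0, fun s => s.elim0,
      ⟨fun s => s.elim0, fun T' J' ζ' _ => ?_⟩, ⟨fun j => (hd.false j).elim, fun s => s.elim0,
        fun s => s.elim0⟩, fun j => (hd.false j).elim, fun s => s.elim0, fun s => s.elim0, ?_, ?_⟩
    · unfold Nw.GP
      simp
    · unfold Nw.Ph
      simp
    · intro T' J' ζ' _ _
      refine ⟨?_, ?_, ?_⟩
      · funext j
        exact (hd.false j).elim
      · funext s
        exact s.elim0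
      · funext s
        exact s.elim0
  set s0 : Fin c := ⟨0, hc⟩ with hs0
  have hr := (hB s0).r0
  have hκ := (hB s0).κ0
  obtain ⟨κ1, hκ0, hκ1, hlat⟩ := lat_lower X hX
  -- the constants of the regions
  have hZ1 : ∀ s, ∃ Kz : ℝ, 0 < Kz ∧ ∃ ρ : ℝ, 0 < ρ ∧ ρ < r ∧ ∀ v ∈ Metric.ball (vC (X.α s)) ρ,
      Adm (X.α s) v → ∀ ζ : ℂ, ‖ζ‖ < ρ → (X.α s 1 ≠ 0 → PG (X.α s) v ζ e3 0 = 0) →
      ‖PG (X.α s) v ζ 0 1 + Kz * ζ‖ ≤ Kz / 2 * ‖ζ‖ := by
    intro s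
    obtain ⟨Kz, hK, h⟩ := hZZ hLC hLTd (X.α s) r κ K C0 (hX.fr s) (hB s)
    obtain ⟨ρ, h1, h2, h3⟩ := h (Kz / 2) (by positivity)
    exact ⟨Kz, hK, ρ, h1, h2, h3⟩
  choose Kz hKz ρs hρs0 hρsr hZ using hZ1
  obtain ⟨b, hb0, hbr, hbs⟩ := exists_min ρs hρs0 hr
  have hME := ME_one X
  have hMEp : 0 < ME X := by linarith
  refine ⟨b / ME X, by positivity, fun ρ hρ hρb => ?_⟩
  have hρb' : ME X * ρ ≤ b := by
    rw [le_div_iff₀ hMEp] at hρb
    linarith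
  have hρr : ME X * ρ ≤ r := hρb'.trans hbr
  set MB : ℝ := c * (|C0| * (ME X + 1) ^ 2) with hMB
  have hMB0 : 0 ≤ MB := by positivity
  set C1 : ℝ := 2 * Fintype.card X.Ix * MB / (2 * κ * κ1) + 2 with hC1
  have hC10 : 0 ≤ C1 := by positivity
  set KK : ℝ := ∑ s, Kz s with hKK
  have hKle : ∀ s, Kz s ≤ KK := fun s =>
    Finset.single_le_sum (f := Kz) (fun s _ => (hKz s).le) (Finset.mem_univ s)
  have hKK0 : 0 ≤ KK := Finset.sum_nonneg fun s _ => (hKz s).le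
  have hπ := Real.pi_pos
  set CC : ℝ := C1 + 27 * KK / (2 * Real.pi) + MB * C1 ^ 2 + c * (27 * KK / 2) with hCC
  set W0 : ℝ := max 1 (max (8 / ρ) (max (8 * Fintype.card X.Ix * MB / (2 * κ * κ1 * ρ))
    (3 * KK / Real.pi))) with hW0
  refine ⟨W0, CC, le_max_left _ _, fun w Wm hWm hw => ?_⟩
  have a1 : 1 ≤ Wm := (le_max_left _ _).trans hWm
  have a2 : 8 / ρ ≤ Wm := (le_max_left _ _).trans ((le_max_right _ _).trans hWm)
  have a3 : 8 * Fintype.card X.Ix * MB / (2 * κ * κ1 * ρ) ≤ Wm :=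
    (le_max_left _ _).trans ((le_max_right _ _).trans ((le_max_right _ _).trans hWm))
  have a4 : 3 * KK / Real.pi ≤ Wm :=
    (le_max_right _ _).trans ((le_max_right _ _).trans ((le_max_right _ _).trans hWm))
  have hWp : 0 < Wm := by linarith
  obtain ⟨u, huR, hz, hdist⟩ := exists_crit X hX hκ hB hκ0 hκ1 hlat hρ hρr w a1 a2 a3 hw
  have hCr := Cr_of X hz
  have hNr := Nr_of_NR X hρ huR
  -- the variables zeta
  have hζ : ∀ s, ‖tZ X u s‖ ≤ 3 / |(w s : ℝ)| ∧ 0 < (tZ X u s).im ∧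
      (tZ X u s).im ≤ 27 * Kz s / (2 * Real.pi) / (w s : ℝ) ^ 2 ∧
      |(Complex.I * Real.pi * ((w s : ℝ) : ℂ) * tZ X u s ^ 2 / 4 +
        Complex.I * Real.pi * tZ X u s).re| ≤ 27 * Kz s / 2 / (w s : ℝ) ^ 2 := by
    intro s
    have hb1 := NR_ball X hX hρ (hρb'.trans (hbs s)) huR s
    have h1 := hZ s (vW X u s) hb1.1 (Adm_vW X hX u s) (tZ X u s) hb1.2 (fun hs => by
      rw [← gW_J X w u s hs]
      exact hz _)
    have h2 := hz (bs X (.inr (.inr s)))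
    rw [gW_Z] at h2
    refine zeta_lem (hKz s) h1 (by push_cast; exact h2) ?_ (a1.trans (hw s))
    refine le_trans ?_ (a4.trans (hw s))
    exact div_le_div_of_nonneg_right (by linarith [hKle s]) hπ.le
  have hws : ∀ s, 0 < (w s : ℝ) ^ 2 := by
    intro s
    have : 0 < |(w s : ℝ)| := by linarith [hw s]
    rw [← sq_abs]
    positivity
  have hwsq : ∀ s, Wm ^ 2 ≤ (w s : ℝ) ^ 2 := by
    intro s
    rw [← sq_abs (w s : ℝ)]
    exact pow_le_pow_left₀ hWp.le (hw s) 2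
  have hpos1 : 0 ≤ 27 * KK / (2 * Real.pi) := by positivity
  have hpos2 : 0 ≤ MB * C1 ^ 2 := by positivity
  have hpos3 : 0 ≤ c * (27 * KK / 2) := by positivity
  have hC1C : C1 ≤ CC := by linarith
  have hdC : ∀ i, ‖u i - uC X i‖ ≤ CC / Wm := by
    intro i
    refine (norm_le_pi_norm (u - uC X) i).trans (hdist.trans ?_)
    exact div_le_div_of_nonneg_right hC1C hWp.le
  refine ⟨tT X u, tJ X u, tZ X u, hCr, hNr, fun j => hdC (.inl j), fun s => ?_, fun s => ?_, ?_, ?_⟩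
  · by_cases hs : X.α s 1 ≠ 0
    · have := hdC (.inr (.inl ⟨s, hs⟩))
      unfold tJ
      rw [dif_pos hs]
      exact this
    · unfold tJ
      rw [dif_neg hs, not_not.1 hs]
      have : 0 ≤ CC / Wm := div_nonneg (hC10.trans hC1C) hWp.le
      simpa using this
  · obtain ⟨b1, b2, b3, -⟩ := hζ s
    refine ⟨b1, b2, b3.trans ?_⟩
    refine div_le_div_of_nonneg_right ?_ (hws s).le
    have : 27 * Kz s / (2 * Real.pi) ≤ 27 * KK / (2 * Real.pi) :=
      div_le_div_of_nonneg_right (by linarith [hKle s]) (by positivity)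
    linarith
  · -- the value
    have hPh : X.Ph w (tT X u) (tJ X u) (tZ X u) = eP X u + ∑ s, (Complex.I * Real.pi *
        ((w s : ℝ) : ℂ) * tZ X u s ^ 2 / 4 + Complex.I * Real.pi * tZ X u s) := by
      unfold Nw.Ph eP
      rw [← Finset.sum_add_distrib]
      refine Finset.sum_congr rfl fun s _ => ?_
      show PE (X.α s) (vW X u s) (tZ X u s) + _ + _ = _
      push_cast
      ring
    have h1 := eP_near X hX hB hρ hρr huR
    rw [eP_uC X hX hB] at h1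
    have h2 : |(eP X u).re - ∑ s, v0 (X.α s)| ≤ MB * C1 ^ 2 / Wm ^ 2 := by
      have h3 : (eP X u).re - ∑ s, v0 (X.α s) =
          (eP X u - ((∑ s, v0 (X.α s) : ℝ) : ℂ)).re := by
        rw [Complex.sub_re, Complex.ofReal_re]
      rw [h3]
      refine (Complex.abs_re_le_norm _).trans (h1.trans ?_)
      have h4 : ‖u - uC X‖ ^ 2 ≤ (C1 / Wm) ^ 2 := pow_le_pow_left₀ (norm_nonneg _) hdist 2
      calc MB * ‖u - uC X‖ ^ 2 ≤ MB * (C1 / Wm) ^ 2 := mul_le_mul_of_nonneg_left h4 hMB0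
        _ = MB * C1 ^ 2 / Wm ^ 2 := by rw [div_pow]; ring
    have h5 : |(∑ s, (Complex.I * Real.pi * ((w s : ℝ) : ℂ) * tZ X u s ^ 2 / 4 +
        Complex.I * Real.pi * tZ X u s)).re| ≤ c * (27 * KK / 2) / Wm ^ 2 := by
      rw [Complex.re_sum]
      refine (Finset.abs_sum_le_sum_abs _ _).trans ?_
      calc ∑ s, |(Complex.I * Real.pi * ((w s : ℝ) : ℂ) * tZ X u s ^ 2 / 4 +
            Complex.I * Real.pi * tZ X u s).re| ≤ ∑ _s : Fin c, 27 * KK / 2 / Wm ^ 2 := by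
            refine Finset.sum_le_sum fun s _ => ((hζ s).2.2.2).trans ?_
            refine div_le_div₀ (by positivity) ?_ (by positivity) (hwsq s)
            linarith [hKle s]
        _ = c * (27 * KK / 2) / Wm ^ 2 := by
            rw [Finset.sum_const, Finset.card_univ, Fintype.card_fin, nsmul_eq_mul]
            ring
    rw [hPh, Complex.add_re]
    have h6 : (eP X u).re + (∑ s, (Complex.I * Real.pi * ((w s : ℝ) : ℂ) * tZ X u s ^ 2 / 4 +
        Complex.I * Real.pi * tZ X u s)).re - ∑ s, v0 (X.α s) =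
        ((eP X u).re - ∑ s, v0 (X.α s)) + (∑ s, (Complex.I * Real.pi * ((w s : ℝ) : ℂ) *
          tZ X u s ^ 2 / 4 + Complex.I * Real.pi * tZ X u s)).re := by ring
    rw [h6]
    refine (abs_add_le _ _).trans ((add_le_add h2 h5).trans ?_)
    rw [← add_div]
    refine div_le_div_of_nonneg_right ?_ (by positivity)
    linarith
  · -- uniqueness
    intro T' J' ζ' hCr' hNr'
    have h1 := gW_mono X hX hκ hB hκ1 hlat hρ hρr w (NR_of_Nr X hNr') huR
    rw [of_Cr X hCr', hz, sub_zero, Complex.zero_re] at h1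
    have h2 : 0 < 2 * κ * κ1 := by positivity
    have h3 : ∑ i, ‖(pk X T' J' ζ' - u) i‖ ^ 2 ≤ 0 := by
      by_contra hcon
      have := mul_pos h2 (not_le.1 hcon)
      linarith
    have h4 : pk X T' J' ζ' - u = 0 := by
      have h5 := (pi_sq_le X (pk X T' J' ζ' - u)).trans h3
      have h6 : ‖pk X T' J' ζ' - u‖ = 0 := by
        have := sq_nonneg ‖pk X T' J' ζ' - u‖
        have h7 : ‖pk X T' J' ζ' - u‖ ^ 2 = 0 := le_antisymm h5 this
        exact pow_eq_zero_iff (two_ne_zero) |>.1 h7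
      exact norm_eq_zero.1 h6
    have h5 : pk X T' J' ζ' = u := sub_eq_zero.1 h4
    rw [← h5, tT_pk, tJ_pk X T' ζ' hCr'.aj, tZ_pk]
    exact ⟨rfl, rfl, rfl⟩

end Pool.Agent.Q299.HT
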