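import Mathlib

/-!
# Project HT, job SDN: a zero of a monotone map

Proof by helper299.
-/

set_option autoImplicit false

namespace Pool.Agent.Q299.HT

open Finset Filter Topology ComplexConjugate

/-- **a strongly monotone Lipschitz map with a small value has a zero.** -/
theorem mono_zero {ι : Type} [Fintype ι] (G : (ι → ℂ) → ι → ℂ) (u0 : ι → ℂ) {R m L : ℝ}
    (hR : 0 < R) (hm : 0 < m) (hL : 0 < L)
    (hlip : ∀ u v : ι → ℂ, ∑ i, ‖u i - u0 i‖ ^ 2 ≤ R ^ 2 → ∑ i, ‖v i - u0 i‖ ^ 2 ≤ R ^ 2 →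
      ∑ i, ‖G u i - G v i‖ ^ 2 ≤ L ^ 2 * ∑ i, ‖u i - v i‖ ^ 2)
    (hmon : ∀ u v : ι → ℂ, ∑ i, ‖u i - u0 i‖ ^ 2 ≤ R ^ 2 → ∑ i, ‖v i - u0 i‖ ^ 2 ≤ R ^ 2 →
      (∑ i, conj (u i - v i) * (G u i - G v i)).re ≤ -m * ∑ i, ‖u i - v i‖ ^ 2)
    (h0 : ∑ i, ‖G u0 i‖ ^ 2 ≤ (m * R / 2) ^ 2) :
    ∃ u : ι → ℂ, ∑ i, ‖u i - u0 i‖ ^ 2 ≤ R ^ 2 ∧ ∀ i, G u i = 0 := by
  classical
  set L' : ℝ := L + m with hL'
  have hL'0 : 0 < L' := by positivity
  set lam : ℝ := m / L' ^ 2 with hlam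
  have hlam0 : 0 < lam := by positivity
  set μ : ℝ := m / L' with hμ
  have hμ0 : 0 < μ := by positivity
  have hμ1 : μ ≤ 1 := by
    rw [hμ, div_le_one hL'0]
    linarith
  have hlm : lam * m = μ ^ 2 := by
    rw [hlam, hμ]
    field_simp
  have hlL : lam ^ 2 * L' ^ 2 = μ ^ 2 := by
    rw [hlam, hμ]
    field_simp
  -- the Euclidean space
  set c0 : EuclideanSpace ℂ ι := WithLp.toLp 2 u0 with hc0
  have hns : ∀ x : EuclideanSpace ℂ ι, ‖x‖ ^ 2 = ∑ i, ‖x i‖ ^ 2 := fun x =>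
    EuclideanSpace.norm_sq_eq x
  have hball : ∀ x : EuclideanSpace ℂ ι, x ∈ Metric.closedBall c0 R ↔
      ∑ i, ‖x i - u0 i‖ ^ 2 ≤ R ^ 2 := by
    intro x
    rw [Metric.mem_closedBall, dist_eq_norm, ← sq_le_sq₀ (norm_nonneg _) hR.le, hns]
    rfl
  set F : EuclideanSpace ℂ ι → EuclideanSpace ℂ ι := fun x =>
    x + (lam : ℂ) • (WithLp.toLp 2 (G (WithLp.ofLp x)) : EuclideanSpace ℂ ι) with hF
  have hcon : ∀ x ∈ Metric.closedBall c0 R, ∀ y ∈ Metric.closedBall c0 R,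
      ‖F x - F y‖ ≤ (1 - μ ^ 2 / 2) * ‖x - y‖ := by
    intro x hx y hy
    have h1 := hlip (WithLp.ofLp x) (WithLp.ofLp y) ((hball x).1 hx) ((hball y).1 hy)
    have h2 := hmon (WithLp.ofLp x) (WithLp.ofLp y) ((hball x).1 hx) ((hball y).1 hy)
    set g : EuclideanSpace ℂ ι := WithLp.toLp 2 (G (WithLp.ofLp x)) -
      WithLp.toLp 2 (G (WithLp.ofLp y)) with hg
    have h3 : F x - F y = (x - y) + (lam : ℂ) • g := by
      rw [hF, hg]
      simp only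
      rw [smul_sub]
      abel
    have h4 : ‖g‖ ^ 2 ≤ L ^ 2 * ‖x - y‖ ^ 2 := by
      rw [hns, hns]
      exact h1
    have h5 : RCLike.re (inner ℂ (x - y) g) ≤ -m * ‖x - y‖ ^ 2 := by
      rw [hns, PiLp.inner_apply]
      refine le_trans (le_of_eq ?_) h2
      show (∑ i, inner ℂ ((x - y) i) (g i)).re = _
      congr 1
      refine Finset.sum_congr rfl fun i _ => ?_
      rw [RCLike.inner_apply, mul_comm]
      rfl
    have h6 : ‖F x - F y‖ ^ 2 ≤ ((1 - μ ^ 2 / 2) * ‖x - y‖) ^ 2 := by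
      rw [h3, norm_add_sq (𝕜 := ℂ), inner_smul_right, norm_smul]
      have h7 : RCLike.re ((lam : ℂ) * inner ℂ (x - y) g) = lam * RCLike.re (inner ℂ (x - y) g) := by
        show ((lam : ℂ) * inner ℂ (x - y) g).re = lam * (inner ℂ (x - y) g).re
        rw [Complex.re_ofReal_mul]
      rw [h7, Complex.norm_real, Real.norm_of_nonneg hlam0.le, mul_pow]
      have h8 : lam * RCLike.re (inner ℂ (x - y) g) ≤ lam * (-m * ‖x - y‖ ^ 2) :=
        mul_le_mul_of_nonneg_left h5 hlam0.le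
      have h9 : lam ^ 2 * ‖g‖ ^ 2 ≤ lam ^ 2 * (L' ^ 2 * ‖x - y‖ ^ 2) := by
        refine mul_le_mul_of_nonneg_left (h4.trans ?_) (sq_nonneg _)
        refine mul_le_mul_of_nonneg_right ?_ (sq_nonneg _)
        exact pow_le_pow_left₀ hL.le (by linarith) 2
      have h10 : lam * (-m * ‖x - y‖ ^ 2) = -(μ ^ 2) * ‖x - y‖ ^ 2 := by
        rw [← hlm]; ring
      have h11 : lam ^ 2 * (L' ^ 2 * ‖x - y‖ ^ 2) = μ ^ 2 * ‖x - y‖ ^ 2 := by
        rw [← hlL]; ring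
      rw [h10] at h8
      rw [h11] at h9
      have h12 : 0 ≤ (μ ^ 2 / 2) ^ 2 * ‖x - y‖ ^ 2 := by positivity
      nlinarith
    refine (sq_le_sq₀ (norm_nonneg _) ?_).1 h6
    have : 0 ≤ 1 - μ ^ 2 / 2 := by nlinarith
    positivity
  have hc0m : c0 ∈ Metric.closedBall c0 R := Metric.mem_closedBall_self hR.le
  have hF0 : ‖F c0 - c0‖ ≤ μ ^ 2 / 2 * R := by
    have h1 : F c0 - c0 = (lam : ℂ) • (WithLp.toLp 2 (G u0) : EuclideanSpace ℂ ι) := by
      rw [hF]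
      simp only
      rw [add_sub_cancel_left]
    rw [h1, norm_smul, Complex.norm_real, Real.norm_of_nonneg hlam0.le]
    have h2 : ‖(WithLp.toLp 2 (G u0) : EuclideanSpace ℂ ι)‖ ≤ m * R / 2 := by
      refine (sq_le_sq₀ (norm_nonneg _) (by positivity)).1 ?_
      rw [hns]
      exact h0
    calc lam * ‖(WithLp.toLp 2 (G u0) : EuclideanSpace ℂ ι)‖ ≤ lam * (m * R / 2) :=
          mul_le_mul_of_nonneg_left h2 hlam0.le
      _ = μ ^ 2 / 2 * R := by rw [← hlm]; ring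
  have hmaps : Set.MapsTo F (Metric.closedBall c0 R) (Metric.closedBall c0 R) := by
    intro x hx
    rw [Metric.mem_closedBall, dist_eq_norm]
    have h1 := hcon x hx c0 hc0m
    have h2 : ‖x - c0‖ ≤ R := by rwa [Metric.mem_closedBall, dist_eq_norm] at hx
    have h3 : F x - c0 = (F x - F c0) + (F c0 - c0) := by abel
    rw [h3]
    refine (norm_add_le _ _).trans ?_
    have h4 : 0 ≤ 1 - μ ^ 2 / 2 := by nlinarith
    have h5 : (1 - μ ^ 2 / 2) * ‖x - c0‖ ≤ (1 - μ ^ 2 / 2) * R := mul_le_mul_of_nonneg_left h2 h4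
    linarith
  have hq : 0 ≤ 1 - μ ^ 2 / 2 := by nlinarith
  have hK : ContractingWith (⟨1 - μ ^ 2 / 2, hq⟩ : NNReal) (hmaps.restrict F _ _) := by
    refine ⟨?_, ?_⟩
    · refine NNReal.coe_lt_coe.1 ?_
      show 1 - μ ^ 2 / 2 < 1
      have : 0 < μ ^ 2 := by positivity
      linarith
    · refine LipschitzWith.of_dist_le_mul fun x y => ?_
      show dist (F x.1) (F y.1) ≤ (1 - μ ^ 2 / 2) * dist x.1 y.1
      rw [dist_eq_norm, dist_eq_norm]
      exact hcon _ x.2 _ y.2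
  obtain ⟨y, hy, hfix, -⟩ := ContractingWith.exists_fixedPoint'
    (Metric.isClosed_closedBall.isComplete) hmaps hK hc0m (edist_ne_top _ _)
  refine ⟨WithLp.ofLp y, (hball y).1 hy, ?_⟩
  have h1 : F y = y := hfix
  have h2 : (lam : ℂ) • (WithLp.toLp 2 (G (WithLp.ofLp y)) : EuclideanSpace ℂ ι) = 0 := by
    have h3 : y + (lam : ℂ) • (WithLp.toLp 2 (G (WithLp.ofLp y)) : EuclideanSpace ℂ ι) = y := h1
    simpa using h3
  rw [smul_eq_zero] at h2
  have h3 : (lam : ℂ) ≠ 0 := by exact_mod_cast hlam0.ne'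
  have h4 := h2.resolve_left h3
  intro i
  have h5 := congrArg (fun z : EuclideanSpace ℂ ι => z i) h4
  exact h5

end Pool.Agent.Q299.HT
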