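import Pool.Agent.Q99.HT.Stm4

/-!
# Project HT, job SDN: the potential of a network, first and second derivatives

Proof by helper299.  The variables of a network are functions on `X.Ix`.
-/

set_option autoImplicit false

namespace Pool.Agent.Q299.HT

open Finset Filter Topology ComplexConjugate
open Pool.Agent.Q99.HT
open Pool.Agent.Q99.KN (LC bb St ct)

/-! ### linearity for one region -/

theorem lf_add (u u' : Fin 4 → ℂ) (i : Fin 6) : lf (u + u') i = lf u i + lf u' i := by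
  fin_cases i <;> simp [lf] <;> ring

theorem lf_smul (k : ℂ) (u : Fin 4 → ℂ) (i : Fin 6) : lf (k • u) i = k * lf u i := by
  fin_cases i <;> simp [lf] <;> ring

theorem PG_add (α : Fin 6 → ℝ) (v : Fin 4 → ℂ) (ζ : ℂ) (u u' : Fin 4 → ℂ) (b b' : ℂ) :
    PG α v ζ (u + u') (b + b') = PG α v ζ u b + PG α v ζ u' b' := by
  unfold PG
  rw [← Finset.sum_add_distrib]
  refine Finset.sum_congr rfl fun i _ => ?_
  split_ifs
  · simp
  · unfold gT
    rw [lf_add]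
    ring

theorem PG_smul (α : Fin 6 → ℝ) (v : Fin 4 → ℂ) (ζ : ℂ) (k : ℂ) (u : Fin 4 → ℂ) (b : ℂ) :
    PG α v ζ (k • u) (k * b) = k * PG α v ζ u b := by
  unfold PG
  rw [Finset.mul_sum]
  refine Finset.sum_congr rfl fun i _ => ?_
  split_ifs
  · simp
  · unfold gT
    rw [lf_smul]
    ring

theorem PG_zero (α : Fin 6 → ℝ) (v : Fin 4 → ℂ) (ζ : ℂ) : PG α v ζ 0 0 = 0 := by
  have h := PG_smul α v ζ 0 0 0
  simpa using h

theorem PH_symm (α : Fin 6 → ℝ) (v : Fin 4 → ℂ) (ζ : ℂ) (u : Fin 4 → ℂ) (b : ℂ)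
    (u' : Fin 4 → ℂ) (b' : ℂ) : PH α v ζ u b u' b' = PH α v ζ u' b' u b := by
  unfold PH
  refine Finset.sum_congr rfl fun i _ => ?_
  split_ifs
  · rfl
  · unfold hT
    ring

theorem PH_add (α : Fin 6 → ℝ) (v : Fin 4 → ℂ) (ζ : ℂ) (u0 : Fin 4 → ℂ) (b0 : ℂ)
    (u u' : Fin 4 → ℂ) (b b' : ℂ) :
    PH α v ζ u0 b0 (u + u') (b + b') = PH α v ζ u0 b0 u b + PH α v ζ u0 b0 u' b' := by
  unfold PH
  rw [← Finset.sum_add_distrib]
  refine Finset.sum_congr rfl fun i _ => ?_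
  split_ifs
  · simp
  · unfold hT
    rw [lf_add]
    ring

theorem PH_smul (α : Fin 6 → ℝ) (v : Fin 4 → ℂ) (ζ : ℂ) (u0 : Fin 4 → ℂ) (b0 : ℂ)
    (k : ℂ) (u : Fin 4 → ℂ) (b : ℂ) :
    PH α v ζ u0 b0 (k • u) (k * b) = k * PH α v ζ u0 b0 u b := by
  unfold PH
  rw [Finset.mul_sum]
  refine Finset.sum_congr rfl fun i _ => ?_
  split_ifs
  · simp
  · unfold hT
    rw [lf_smul]
    ring

section
variable {c d : ℕ} (X : Nw c d)

/-! ### parts of a vector -/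

/-- the lattice variables -/
def tT (u : X.Ix → ℂ) : Fin d → ℂ := fun j => u (.inl j)

/-- the summation indices -/
noncomputable def tJ (u : X.Ix → ℂ) : Fin c → ℂ := fun s =>
  if h : X.α s 1 ≠ 0 then u (.inr (.inl ⟨s, h⟩)) else 0

/-- the variables `ζ` -/
def tZ (u : X.Ix → ℂ) : Fin c → ℂ := fun s => u (.inr (.inr s))

/-- all variables together -/
def pk (T : Fin d → ℂ) (J ζ : Fin c → ℂ) : X.Ix → ℂ := Sum.elim T (Sum.elim (fun s => J s.1) ζ)

/-- the centre -/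
noncomputable def uC : X.Ix → ℂ := Sum.elim (fun j => (X.τ j : ℂ))
  (Sum.elim (fun s => (X.α s.1 1 : ℂ)) (fun _ => 0))

theorem tT_pk (T : Fin d → ℂ) (J ζ : Fin c → ℂ) : tT X (pk X T J ζ) = T := rfl

theorem tZ_pk (T : Fin d → ℂ) (J ζ : Fin c → ℂ) : tZ X (pk X T J ζ) = ζ := rfl

theorem tJ_pk (T : Fin d → ℂ) {J : Fin c → ℂ} (ζ : Fin c → ℂ) (hJ : X.AJ J) :
    tJ X (pk X T J ζ) = J := by
  funext s
  unfold tJ pk
  split_ifs with h
  · rfl
  · exact (hJ s (not_not.1 h)).symm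

theorem tJ_AJ (u : X.Ix → ℂ) : X.AJ (tJ X u) := by
  intro s hs
  unfold tJ
  rw [dif_neg (not_not.2 hs)]

theorem pk_t (u : X.Ix → ℂ) : pk X (tT X u) (tJ X u) (tZ X u) = u := by
  funext i
  rcases i with i | i | i
  · rfl
  · show tJ X u i.1 = u (.inr (.inl i))
    unfold tJ
    rw [dif_pos i.2]
  · rfl

theorem tT_add (u h : X.Ix → ℂ) : tT X (u + h) = tT X u + tT X h := rfl
theorem tZ_add (u h : X.Ix → ℂ) : tZ X (u + h) = tZ X u + tZ X h := rfl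
theorem tJ_add (u h : X.Ix → ℂ) : tJ X (u + h) = tJ X u + tJ X h := by
  funext s
  simp only [tJ, Pi.add_apply]
  split_ifs <;> simp
theorem tT_smul (k : ℂ) (h : X.Ix → ℂ) : tT X (k • h) = k • tT X h := rfl
theorem tZ_smul (k : ℂ) (h : X.Ix → ℂ) : tZ X (k • h) = k • tZ X h := rfl
theorem tJ_smul (k : ℂ) (h : X.Ix → ℂ) : tJ X (k • h) = k • tJ X h := by
  funext s
  simp only [tJ, Pi.smul_apply]
  split_ifs <;> simp

/-- the variables of a region -/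
noncomputable def vW (u : X.Ix → ℂ) (s : Fin c) : Fin 4 → ℂ := X.v (tT X u) (tJ X u) s

/-- the directions of a region -/
noncomputable def dW (h : X.Ix → ℂ) (s : Fin c) : Fin 4 → ℂ := X.dv (tT X h) (tJ X h) s

theorem dW_add (h k : X.Ix → ℂ) (s : Fin c) : dW X (h + k) s = dW X h s + dW X k s := by
  unfold dW Nw.dv
  rw [tT_add, tJ_add]
  funext i
  fin_cases i <;> simp [add_mul, Finset.sum_add_distrib]

theorem dW_smul (a : ℂ) (k : X.Ix → ℂ) (s : Fin c) : dW X (a • k) s = a • dW X k s := by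
  unfold dW Nw.dv
  rw [tT_smul, tJ_smul]
  funext i
  fin_cases i <;> simp [Finset.mul_sum, mul_assoc]

theorem vW_add (u h : X.Ix → ℂ) (s : Fin c) : vW X (u + h) s = vW X u s + dW X h s := by
  unfold vW dW Nw.dv Nw.v Nw.x
  rw [tT_add, tJ_add]
  funext i
  fin_cases i <;> simp [add_mul, Finset.sum_add_distrib, add_assoc]

theorem vW_uC (hX : X.Ok) (s : Fin c) : vW X (uC X) s = vC (X.α s) := by
  have h0 := hX.ctr s 0
  have h1 := hX.ctr s 1
  have h2 := hX.ctr s 2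
  have e : ∀ i, (X.q0 s i : ℂ) + ∑ j, (X.τ j : ℂ) * (X.E j s i : ℂ) = (qc (X.α s) i : ℂ) := by
    intro i
    rw [hX.ctr s i]
    push_cast
    rfl
  funext i
  fin_cases i
  · show (X.q0 s 0 : ℂ) + ∑ j, (X.τ j : ℂ) * (X.E j s 0 : ℂ) = _
    rw [e]
    simp [qc, vC]
  · show (X.q0 s 1 : ℂ) + ∑ j, (X.τ j : ℂ) * (X.E j s 1 : ℂ) = _
    rw [e]
    simp [qc, vC]
  · show (X.q0 s 2 : ℂ) + ∑ j, (X.τ j : ℂ) * (X.E j s 2 : ℂ) = _
    rw [e]
    simp [qc, vC]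
  · show tJ X (uC X) s = (X.α s 1 : ℂ)
    unfold tJ uC
    split_ifs with h
    · rfl
    · rw [not_not.1 h]
      simp

/-! ### admissibility -/

theorem E_zero (hX : X.Ok) {s : Fin c} {i : Fin 3} (h : qc (X.α s) i = 0) :
    X.q0 s i = 0 ∧ ∀ j, X.E j s i = 0 := hX.zer s i h

theorem Adm_dW (hX : X.Ok) (h : X.Ix → ℂ) (s : Fin c) : Adm (X.α s) (dW X h s) := by
  refine ⟨fun h0 => ?_, fun h1 => ⟨?_, ?_⟩, fun h3 => ?_⟩
  · have := (hX.zer s 0 (by simpa [qc] using h0)).2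
    show ∑ j, tT X h j * (X.E j s 0 : ℂ) = 0
    refine Finset.sum_eq_zero fun j _ => ?_
    rw [this j]
    simp
  · have h4 := ((hX.fr s).z14).1 h1
    have := (hX.zer s 1 (by simp [qc, h1, h4])).2
    show ∑ j, tT X h j * (X.E j s 1 : ℂ) = 0
    refine Finset.sum_eq_zero fun j _ => ?_
    rw [this j]
    simp
  · exact tJ_AJ X h s h1
  · have := (hX.zer s 2 (by simpa [qc] using h3)).2
    show ∑ j, tT X h j * (X.E j s 2 : ℂ) = 0
    refine Finset.sum_eq_zero fun j _ => ?_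
    rw [this j]
    simp

theorem Adm_vW (hX : X.Ok) (u : X.Ix → ℂ) (s : Fin c) : Adm (X.α s) (vW X u s) := by
  refine ⟨fun h0 => ?_, fun h1 => ⟨?_, ?_⟩, fun h3 => ?_⟩
  · have := (hX.zer s 0 (by simpa [qc] using h0))
    show (X.q0 s 0 : ℂ) + ∑ j, tT X u j * (X.E j s 0 : ℂ) = 0
    rw [this.1, Int.cast_zero, zero_add]
    refine Finset.sum_eq_zero fun j _ => ?_
    rw [this.2 j]
    simp
  · have h4 := ((hX.fr s).z14).1 h1
    have := (hX.zer s 1 (by simp [qc, h1, h4]))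
    show (X.q0 s 1 : ℂ) + ∑ j, tT X u j * (X.E j s 1 : ℂ) = 0
    rw [this.1, Int.cast_zero, zero_add]
    refine Finset.sum_eq_zero fun j _ => ?_
    rw [this.2 j]
    simp
  · exact tJ_AJ X u s h1
  · have := (hX.zer s 2 (by simpa [qc] using h3))
    show (X.q0 s 2 : ℂ) + ∑ j, tT X u j * (X.E j s 2 : ℂ) = 0
    rw [this.1, Int.cast_zero, zero_add]
    refine Finset.sum_eq_zero fun j _ => ?_
    rw [this.2 j]
    simp

/-! ### sizes -/

/-- the size of the lattice vectors -/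
noncomputable def ME : ℝ := 1 + ∑ s, ∑ i, ∑ j, |(X.E j s i : ℝ)|

theorem ME_one : 1 ≤ ME X := by
  unfold ME
  have : 0 ≤ ∑ s, ∑ i, ∑ j, |(X.E j s i : ℝ)| :=
    Finset.sum_nonneg fun _ _ => Finset.sum_nonneg fun _ _ => Finset.sum_nonneg fun _ _ => abs_nonneg _
  linarith

theorem sum_E_le (s : Fin c) (i : Fin 3) : ∑ j, |(X.E j s i : ℝ)| ≤ ME X := by
  unfold ME
  have h1 : ∑ j, |(X.E j s i : ℝ)| ≤ ∑ i, ∑ j, |(X.E j s i : ℝ)| :=
    Finset.single_le_sum (f := fun i => ∑ j, |(X.E j s i : ℝ)|)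
      (fun _ _ => Finset.sum_nonneg fun _ _ => abs_nonneg _) (Finset.mem_univ i)
  have h2 : ∑ i, ∑ j, |(X.E j s i : ℝ)| ≤ ∑ s, ∑ i, ∑ j, |(X.E j s i : ℝ)| :=
    Finset.single_le_sum (f := fun s => ∑ i, ∑ j, |(X.E j s i : ℝ)|)
      (fun _ _ => Finset.sum_nonneg fun _ _ => Finset.sum_nonneg fun _ _ => abs_nonneg _)
      (Finset.mem_univ s)
  linarith

theorem norm_tJ (h : X.Ix → ℂ) (s : Fin c) : ‖tJ X h s‖ ≤ ‖h‖ := by
  unfold tJ
  split_ifs with h1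
  · exact norm_le_pi_norm h _
  · rw [norm_zero]
    exact norm_nonneg _

theorem norm_tZ (h : X.Ix → ℂ) (s : Fin c) : ‖tZ X h s‖ ≤ ‖h‖ := norm_le_pi_norm h _

theorem norm_dW (h : X.Ix → ℂ) (s : Fin c) : ‖dW X h s‖ ≤ ME X * ‖h‖ := by
  have h0 : 0 ≤ ME X * ‖h‖ := mul_nonneg (by linarith [ME_one X]) (norm_nonneg _)
  have h1 : ∀ i, ‖∑ j, tT X h j * (X.E j s i : ℂ)‖ ≤ ME X * ‖h‖ := by
    intro i
    refine (norm_sum_le _ _).trans ?_
    have h2 : ∀ j ∈ Finset.univ, ‖tT X h j * (X.E j s i : ℂ)‖ ≤ |(X.E j s i : ℝ)| * ‖h‖ := by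
      intro j _
      rw [norm_mul, mul_comm]
      have e1 : ‖(X.E j s i : ℂ)‖ = |(X.E j s i : ℝ)| := by
        rw [← Complex.ofReal_intCast, Complex.norm_real, Real.norm_eq_abs]
      rw [e1]
      exact mul_le_mul_of_nonneg_left (norm_le_pi_norm h (.inl j)) (abs_nonneg _)
    refine (Finset.sum_le_sum h2).trans ?_
    rw [← Finset.sum_mul]
    exact mul_le_mul_of_nonneg_right (sum_E_le X s i) (norm_nonneg _)
  rw [pi_norm_le_iff_of_nonneg h0]
  intro i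
  fin_cases i
  · exact h1 0
  · exact h1 1
  · exact h1 2
  · refine (norm_tJ X h s).trans ?_
    exact le_mul_of_one_le_left (norm_nonneg _) (ME_one X)

/-- the polydisc -/
def NR (ρ : ℝ) (u : X.Ix → ℂ) : Prop := ∀ i, ‖u i - uC X i‖ < ρ

theorem NR_ball (hX : X.Ok) {ρ r : ℝ} (hρ : 0 < ρ) (h : ME X * ρ ≤ r) {u : X.Ix → ℂ}
    (hu : NR X ρ u) (s : Fin c) : vW X u s ∈ Metric.ball (vC (X.α s)) r ∧ ‖tZ X u s‖ < r := by
  have h1 : ‖u - uC X‖ < ρ := (pi_norm_lt_iff hρ).2 hu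
  have hM := ME_one X
  constructor
  · rw [Metric.mem_ball, dist_eq_norm, ← vW_uC X hX s]
    have h2 : vW X u s - vW X (uC X) s = dW X (u - uC X) s := by
      have h3 := vW_add X (uC X) (u - uC X) s
      rw [add_sub_cancel] at h3
      rw [h3]
      abel
    rw [h2]
    refine (norm_dW X _ s).trans_lt (lt_of_lt_of_le ?_ h)
    exact mul_lt_mul_of_pos_left h1 (by linarith)
  · have h2 := hu (.inr (.inr s))
    have h3 : tZ X u s = u (.inr (.inr s)) - uC X (.inr (.inr s)) := by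
      show u (.inr (.inr s)) = u (.inr (.inr s)) - 0
      rw [sub_zero]
    rw [h3]
    refine h2.trans_le (le_trans ?_ h)
    exact le_mul_of_one_le_left hρ.le hM

theorem NR_seg {ρ : ℝ} {u v : X.Ix → ℂ} (hu : NR X ρ u) (hv : NR X ρ v) {t : ℝ} (h0 : 0 ≤ t)
    (h1 : t ≤ 1) : NR X ρ (v + (t : ℂ) • (u - v)) := by
  intro i
  have h2 : (v + (t : ℂ) • (u - v)) i - uC X i =
      ((1 - t : ℝ) : ℂ) * (v i - uC X i) + (t : ℂ) * (u i - uC X i) := by
    simp only [Pi.add_apply, Pi.smul_apply, Pi.sub_apply, smul_eq_mul]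
    push_cast
    ring
  rw [h2]
  refine (norm_add_le _ _).trans_lt ?_
  rw [norm_mul, norm_mul, Complex.norm_real, Complex.norm_real, Real.norm_of_nonneg (by linarith),
    Real.norm_of_nonneg h0]
  have a := hu i
  have b := hv i
  rcases h0.eq_or_lt with h3 | h3
  · rw [← h3]
    simpa using b
  · have h4 : t * ‖u i - uC X i‖ < t * ρ := mul_lt_mul_of_pos_left a h3
    have h5 : (1 - t) * ‖v i - uC X i‖ ≤ (1 - t) * ρ := mul_le_mul_of_nonneg_left b.le (by linarith)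
    linarith

/-! ### the forms -/

/-- the potential without the terms of the twists -/
noncomputable def eP (u : X.Ix → ℂ) : ℂ := ∑ s, PE (X.α s) (vW X u s) (tZ X u s)

/-- its derivative -/
noncomputable def gP (u h : X.Ix → ℂ) : ℂ :=
  ∑ s, PG (X.α s) (vW X u s) (tZ X u s) (dW X h s) (tZ X h s)

/-- its second derivative -/
noncomputable def hP (u h k : X.Ix → ℂ) : ℂ :=
  ∑ s, PH (X.α s) (vW X u s) (tZ X u s) (dW X h s) (tZ X h s) (dW X k s) (tZ X k s)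

theorem gP_add (u h k : X.Ix → ℂ) : gP X u (h + k) = gP X u h + gP X u k := by
  unfold gP
  rw [← Finset.sum_add_distrib]
  refine Finset.sum_congr rfl fun s _ => ?_
  rw [dW_add, tZ_add, Pi.add_apply, PG_add]

theorem gP_smul (u : X.Ix → ℂ) (a : ℂ) (h : X.Ix → ℂ) : gP X u (a • h) = a * gP X u h := by
  unfold gP
  rw [Finset.mul_sum]
  refine Finset.sum_congr rfl fun s _ => ?_
  rw [dW_smul, tZ_smul, Pi.smul_apply, smul_eq_mul, PG_smul]

theorem hP_symm (u h k : X.Ix → ℂ) : hP X u h k = hP X u k h := by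
  unfold hP
  exact Finset.sum_congr rfl fun s _ => PH_symm _ _ _ _ _ _ _

theorem hP_add (u h k k' : X.Ix → ℂ) : hP X u h (k + k') = hP X u h k + hP X u h k' := by
  unfold hP
  rw [← Finset.sum_add_distrib]
  refine Finset.sum_congr rfl fun s _ => ?_
  rw [dW_add, tZ_add, Pi.add_apply, PH_add]

theorem hP_smul (u h : X.Ix → ℂ) (a : ℂ) (k : X.Ix → ℂ) : hP X u h (a • k) = a * hP X u h k := by
  unfold hP
  rw [Finset.mul_sum]
  refine Finset.sum_congr rfl fun s _ => ?_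
  rw [dW_smul, tZ_smul, Pi.smul_apply, smul_eq_mul, PH_smul]

theorem gP_uC (hX : X.Ok) {r κ K C0 : ℝ} (hB : ∀ s, Blk (X.α s) r κ K C0) (h : X.Ix → ℂ) :
    gP X (uC X) h = 0 := by
  unfold gP
  have h1 : ∀ s, PG (X.α s) (vW X (uC X) s) (tZ X (uC X) s) (dW X h s) (tZ X h s) =
      ∑ i, (ml (X.α s) i : ℂ) * ∑ j, tT X h j * (X.E j s i : ℂ) := by
    intro s
    rw [vW_uC X hX s]
    have h2 : tZ X (uC X) s = 0 := rfl
    rw [h2, (hB s).cen _ _ (Adm_dW X hX h s), Fin.sum_univ_three]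
    rfl
  simp only [h1]
  have h3 : ∀ s, ∑ i, (ml (X.α s) i : ℂ) * ∑ j, tT X h j * (X.E j s i : ℂ) =
      ∑ j, tT X h j * ∑ i, (ml (X.α s) i : ℂ) * (X.E j s i : ℂ) := by
    intro s
    simp only [Finset.mul_sum]
    rw [Finset.sum_comm]
    refine Finset.sum_congr rfl fun j _ => Finset.sum_congr rfl fun i _ => ?_
    ring
  simp only [h3]
  rw [Finset.sum_comm]
  refine Finset.sum_eq_zero fun j _ => ?_
  rw [← Finset.mul_sum]
  have h4 := congrArg (fun x : ℝ => (x : ℂ)) (hX.crit j)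
  push_cast at h4
  rw [h4, mul_zero]

theorem eP_uC (hX : X.Ok) {r κ K C0 : ℝ} (hB : ∀ s, Blk (X.α s) r κ K C0) :
    eP X (uC X) = ((∑ s, v0 (X.α s) : ℝ) : ℂ) := by
  unfold eP
  push_cast
  refine Finset.sum_congr rfl fun s _ => ?_
  rw [vW_uC X hX s]
  exact (hB s).val

/-! ### derivatives -/

theorem gP_deriv {r κ K C0 : ℝ} (hB : ∀ s, Blk (X.α s) r κ K C0) {u : X.Ix → ℂ}
    (hu : ∀ s, vW X u s ∈ Metric.ball (vC (X.α s)) r ∧ ‖tZ X u s‖ < r) (h k : X.Ix → ℂ) :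
    HasDerivAt (fun t : ℂ => gP X (u + t • h) k) (hP X u h k) 0 := by
  unfold gP hP
  refine HasDerivAt.fun_sum fun s _ => ?_
  have h1 := ((hB s).der _ (hu s).1 _ (hu s).2 (dW X h s) (dW X k s) (tZ X h s) (tZ X k s)).2
  have h2 : (fun t : ℂ => PG (X.α s) (vW X (u + t • h) s) (tZ X (u + t • h) s) (dW X k s) (tZ X k s)) =
      fun t : ℂ => PG (X.α s) (vW X u s + t • dW X h s) (tZ X u s + t * tZ X h s) (dW X k s)
        (tZ X k s) := by
    funext t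
    rw [vW_add, dW_smul]
    rfl
  rw [h2]
  exact h1

theorem eP_deriv {r κ K C0 : ℝ} (hB : ∀ s, Blk (X.α s) r κ K C0) {u : X.Ix → ℂ}
    (hu : ∀ s, vW X u s ∈ Metric.ball (vC (X.α s)) r ∧ ‖tZ X u s‖ < r) (h : X.Ix → ℂ) :
    HasDerivAt (fun t : ℂ => eP X (u + t • h)) (gP X u h) 0 := by
  unfold eP gP
  refine HasDerivAt.fun_sum fun s _ => ?_
  have h1 := ((hB s).der _ (hu s).1 _ (hu s).2 (dW X h s) 0 (tZ X h s) 0).1
  have h2 : (fun t : ℂ => PE (X.α s) (vW X (u + t • h) s) (tZ X (u + t • h) s)) =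
      fun t : ℂ => PE (X.α s) (vW X u s + t • dW X h s) (tZ X u s + t * tZ X h s) := by
    funext t
    rw [vW_add, dW_smul]
    rfl
  rw [h2]
  exact h1

theorem shift_deriv {f : (X.Ix → ℂ) → ℂ} {v h : X.Ix → ℂ} {f' : ℂ} {t : ℝ}
    (hd : HasDerivAt (fun τ : ℂ => f ((v + (t : ℂ) • h) + τ • h)) f' 0) :
    HasDerivAt (fun τ : ℝ => f (v + (τ : ℂ) • h)) f' t := by
  have h1 : HasDerivAt (fun τ : ℂ => f (v + τ • h)) f' (t : ℂ) := by
    have h2 : HasDerivAt (fun τ : ℂ => f ((v + (t : ℂ) • h) + τ • h)) f' ((t : ℂ) - (t : ℂ)) := by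
      rw [sub_self]
      exact hd
    have h3 := h2.comp_sub_const (t : ℂ) (t : ℂ)
    refine h3.congr_of_eventuallyEq (Eventually.of_forall fun τ => ?_)
    show f (v + τ • h) = f ((v + (t : ℂ) • h) + (τ - t) • h)
    congr 1
    rw [sub_smul]
    abel
  exact h1.comp_ofReal

theorem hP_norm {r κ K C0 : ℝ} (hB : ∀ s, Blk (X.α s) r κ K C0) {u : X.Ix → ℂ}
    (hu : ∀ s, vW X u s ∈ Metric.ball (vC (X.α s)) r ∧ ‖tZ X u s‖ < r) (h k : X.Ix → ℂ) :
    ‖hP X u h k‖ ≤ (c * (|C0| * (ME X + 1) ^ 2)) * ‖h‖ * ‖k‖ := by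
  unfold hP
  refine (norm_sum_le _ _).trans ?_
  have h1 : ∀ s ∈ Finset.univ, ‖PH (X.α s) (vW X u s) (tZ X u s) (dW X h s) (tZ X h s) (dW X k s)
      (tZ X k s)‖ ≤ (|C0| * (ME X + 1) ^ 2) * ‖h‖ * ‖k‖ := by
    intro s _
    refine ((hB s).bdd _ (hu s).1 _ (hu s).2 _ _ _ _).trans ?_
    have hM := ME_one X
    have a1 : ‖dW X h s‖ + ‖tZ X h s‖ ≤ (ME X + 1) * ‖h‖ := by
      linarith [norm_dW X h s, norm_tZ X h s]
    have a2 : ‖dW X k s‖ + ‖tZ X k s‖ ≤ (ME X + 1) * ‖k‖ := by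
      linarith [norm_dW X k s, norm_tZ X k s]
    have hC : 0 ≤ C0 := by linarith [(hB s).C1]
    rw [abs_of_nonneg hC]
    calc C0 * (‖dW X h s‖ + ‖tZ X h s‖) * (‖dW X k s‖ + ‖tZ X k s‖)
        ≤ C0 * ((ME X + 1) * ‖h‖) * ((ME X + 1) * ‖k‖) := by
          refine mul_le_mul (mul_le_mul_of_nonneg_left a1 hC) a2 (by positivity) (by positivity)
      _ = C0 * (ME X + 1) ^ 2 * ‖h‖ * ‖k‖ := by ring
  refine (Finset.sum_le_sum h1).trans ?_
  rw [Finset.sum_const, Finset.card_univ, Fintype.card_fin, nsmul_eq_mul]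
  exact le_of_eq (by ring)

end

end Pool.Agent.Q299.HT
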