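import Pool.Agent.Q299.HT.SDNB

/-!
# Project HT, job SDN: coercivity and the mean value theorem

Proof by helper299.
-/

set_option autoImplicit false

namespace Pool.Agent.Q299.HT

open Finset Filter Topology ComplexConjugate
open Pool.Agent.Q99.HT

section
variable {c d : ℕ} (X : Nw c d)

/-- the lattice map -/
noncomputable def latR (t : Fin d → ℝ) (s : Fin c) (i : Fin 3) : ℝ := ∑ j, t j * X.E j s i

theorem lat_lower (hX : X.Ok) : ∃ κ1 : ℝ, 0 < κ1 ∧ κ1 ≤ 1 ∧ ∀ t : Fin d → ℝ,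
    κ1 * ∑ j, t j ^ 2 ≤ ∑ s, ∑ i, latR X t s i ^ 2 := by
  classical
  let f : (Fin d → ℝ) →ₗ[ℝ] (Fin c → Fin 3 → ℝ) :=
    { toFun := fun t => latR X t
      map_add' := by
        intro a b
        funext s i
        simp only [latR, Pi.add_apply, add_mul, Finset.sum_add_distrib]
      map_smul' := by
        intro a b
        funext s i
        simp only [latR, Pi.smul_apply, smul_eq_mul, RingHom.id_apply, Finset.mul_sum, mul_assoc] }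
  have hinj : LinearMap.ker f = ⊥ := by
    rw [LinearMap.ker_eq_bot']
    intro t ht
    refine hX.inj t fun s i => ?_
    have := congrFun (congrFun ht s) i
    exact this
  obtain ⟨Kc, hK0, hK⟩ := f.exists_antilipschitzWith hinj
  have hKr : (0 : ℝ) < Kc := by exact_mod_cast hK0
  have key : ∀ t : Fin d → ℝ, ‖t‖ ≤ Kc * ‖f t‖ := by
    intro t
    have := hK.le_mul_dist t 0
    rw [map_zero, dist_zero_right, dist_zero_right] at this
    exact this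
  have hS : ∀ t : Fin d → ℝ, ‖f t‖ ^ 2 ≤ ∑ s, ∑ i, latR X t s i ^ 2 := by
    intro t
    have h0 : 0 ≤ ∑ s, ∑ i, latR X t s i ^ 2 :=
      Finset.sum_nonneg fun _ _ => Finset.sum_nonneg fun _ _ => sq_nonneg _
    have h1 : ‖f t‖ ≤ √(∑ s, ∑ i, latR X t s i ^ 2) := by
      rw [pi_norm_le_iff_of_nonneg (Real.sqrt_nonneg _)]
      intro s
      rw [pi_norm_le_iff_of_nonneg (Real.sqrt_nonneg _)]
      intro i
      show |latR X t s i| ≤ _
      refine Real.abs_le_sqrt ?_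
      refine (Finset.single_le_sum (f := fun i => latR X t s i ^ 2) (fun _ _ => sq_nonneg _)
        (Finset.mem_univ i)).trans ?_
      exact Finset.single_le_sum (f := fun s => ∑ i, latR X t s i ^ 2)
        (fun _ _ => Finset.sum_nonneg fun _ _ => sq_nonneg _) (Finset.mem_univ s)
    calc ‖f t‖ ^ 2 ≤ √(∑ s, ∑ i, latR X t s i ^ 2) ^ 2 := pow_le_pow_left₀ (norm_nonneg _) h1 2
      _ = _ := Real.sq_sqrt h0
  refine ⟨1 / (1 + d * Kc ^ 2), by positivity, ?_, fun t => ?_⟩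
  · rw [div_le_one (by positivity)]
    have : 0 ≤ (d : ℝ) * Kc ^ 2 := by positivity
    linarith
  have h0 : 0 ≤ ∑ s, ∑ i, latR X t s i ^ 2 :=
    Finset.sum_nonneg fun _ _ => Finset.sum_nonneg fun _ _ => sq_nonneg _
  have h1 : ∑ j, t j ^ 2 ≤ d * ‖t‖ ^ 2 := by
    calc ∑ j, t j ^ 2 ≤ ∑ _j : Fin d, ‖t‖ ^ 2 := by
          refine Finset.sum_le_sum fun j _ => ?_
          rw [← sq_abs]
          exact pow_le_pow_left₀ (abs_nonneg _) (norm_le_pi_norm t j) 2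
      _ = d * ‖t‖ ^ 2 := by simp
  have h2 : ‖t‖ ^ 2 ≤ Kc ^ 2 * ‖f t‖ ^ 2 := by
    rw [← mul_pow]
    exact pow_le_pow_left₀ (norm_nonneg _) (key t) 2
  rw [div_mul_eq_mul_div, one_mul, div_le_iff₀ (by positivity)]
  calc ∑ j, t j ^ 2 ≤ d * (Kc ^ 2 * ‖f t‖ ^ 2) := h1.trans (mul_le_mul_of_nonneg_left h2 (by positivity))
    _ ≤ d * (Kc ^ 2 * ∑ s, ∑ i, latR X t s i ^ 2) := by
        refine mul_le_mul_of_nonneg_left (mul_le_mul_of_nonneg_left (hS t) (by positivity))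
          (by positivity)
    _ ≤ (∑ s, ∑ i, latR X t s i ^ 2) * (1 + d * Kc ^ 2) := by linarith

theorem sum_J (a : X.Ix → ℝ) :
    ∑ s, (if h : X.α s 1 ≠ 0 then a (.inr (.inl ⟨s, h⟩)) else 0) ^ 2 =
      ∑ s : {s : Fin c // X.α s 1 ≠ 0}, a (.inr (.inl s)) ^ 2 := by
  classical
  have h1 : ∀ s : Fin c, (if h : X.α s 1 ≠ 0 then a (.inr (.inl ⟨s, h⟩)) else 0) ^ 2 =
      if h : X.α s 1 ≠ 0 then a (.inr (.inl ⟨s, h⟩)) ^ 2 else 0 := by
    intro s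
    split_ifs <;> simp
  simp only [h1]
  rw [Finset.sum_dite]
  simp only [Finset.sum_const_zero, add_zero]
  refine Finset.sum_bij (fun x _ => ⟨x.1, (Finset.mem_filter.1 x.2).2⟩) (fun _ _ => Finset.mem_univ _)
    ?_ ?_ ?_
  · intro x _ y _ hab
    have := congrArg Subtype.val hab
    exact Subtype.ext this
  · intro b _
    exact ⟨⟨b.1, Finset.mem_filter.2 ⟨Finset.mem_univ _, b.2⟩⟩, Finset.mem_attach _ _, rfl⟩
  · intro x _
    rfl

/-- a real vector -/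
noncomputable def rv (a : X.Ix → ℝ) : X.Ix → ℂ := fun i => (a i : ℂ)

/-- the real direction -/
noncomputable def dR (a : X.Ix → ℝ) (s : Fin c) : Fin 4 → ℝ :=
  ![latR X (fun j => a (.inl j)) s 0, latR X (fun j => a (.inl j)) s 1,
    latR X (fun j => a (.inl j)) s 2, if h : X.α s 1 ≠ 0 then a (.inr (.inl ⟨s, h⟩)) else 0]

theorem dW_rv (a : X.Ix → ℝ) (s : Fin c) : dW X (rv X a) s = fun i => ((dR X a s i : ℝ) : ℂ) := by
  funext i
  fin_cases i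
  · show ∑ j, (a (.inl j) : ℂ) * (X.E j s 0 : ℂ) = ((latR X (fun j => a (.inl j)) s 0 : ℝ) : ℂ)
    unfold latR
    push_cast
    rfl
  · show ∑ j, (a (.inl j) : ℂ) * (X.E j s 1 : ℂ) = ((latR X (fun j => a (.inl j)) s 1 : ℝ) : ℂ)
    unfold latR
    push_cast
    rfl
  · show ∑ j, (a (.inl j) : ℂ) * (X.E j s 2 : ℂ) = ((latR X (fun j => a (.inl j)) s 2 : ℝ) : ℂ)
    unfold latR
    push_cast
    rfl
  · show tJ X (rv X a) s = (((if h : X.α s 1 ≠ 0 then a (.inr (.inl ⟨s, h⟩)) else 0) : ℝ) : ℂ)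
    unfold tJ
    split_ifs
    · rfl
    · simp

theorem hP_real (hX : X.Ok) {r κ K C0 κ1 : ℝ} (hκ : 0 < κ) (hB : ∀ s, Blk (X.α s) r κ K C0)
    (hκ1 : κ1 ≤ 1) (hlat : ∀ t : Fin d → ℝ, κ1 * ∑ j, t j ^ 2 ≤ ∑ s, ∑ i, latR X t s i ^ 2)
    {u : X.Ix → ℂ} (hu : ∀ s, vW X u s ∈ Metric.ball (vC (X.α s)) r ∧ ‖tZ X u s‖ < r)
    (a : X.Ix → ℝ) : (hP X u (rv X a) (rv X a)).re ≤ -(2 * κ * κ1) * ∑ i, a i ^ 2 := by
  unfold hP
  rw [Complex.re_sum]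
  have h1 : ∀ s ∈ Finset.univ, (PH (X.α s) (vW X u s) (tZ X u s) (dW X (rv X a) s) (tZ X (rv X a) s)
      (dW X (rv X a) s) (tZ X (rv X a) s)).re ≤
      -(2 * κ) * (∑ i, dR X a s i ^ 2 + a (.inr (.inr s)) ^ 2) := by
    intro s _
    have h2 := (hB s).hes _ (hu s).1 _ (hu s).2 (dR X a s) (a (.inr (.inr s))) (by
      rw [← dW_rv]
      exact Adm_dW X hX _ s)
    rw [dW_rv]
    exact h2
  refine (Finset.sum_le_sum h1).trans ?_
  rw [← Finset.mul_sum, Finset.sum_add_distrib, Fintype.sum_sum_type, Fintype.sum_sum_type]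
  have h3 : ∀ s, ∑ i, dR X a s i ^ 2 = ∑ i, latR X (fun j => a (.inl j)) s i ^ 2 +
      (if h : X.α s 1 ≠ 0 then a (.inr (.inl ⟨s, h⟩)) else 0) ^ 2 := by
    intro s
    rw [Fin.sum_univ_four, Fin.sum_univ_three]
    rfl
  simp only [h3]
  rw [Finset.sum_add_distrib, sum_J]
  have h4 := hlat fun j => a (.inl j)
  have h5 : 0 ≤ ∑ s : {s : Fin c // X.α s 1 ≠ 0}, a (.inr (.inl s)) ^ 2 :=
    Finset.sum_nonneg fun _ _ => sq_nonneg _
  have h6 : 0 ≤ ∑ s : Fin c, a (.inr (.inr s)) ^ 2 := Finset.sum_nonneg fun _ _ => sq_nonneg _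
  have h7 : κ1 * ∑ s : {s : Fin c // X.α s 1 ≠ 0}, a (.inr (.inl s)) ^ 2 ≤
      ∑ s : {s : Fin c // X.α s 1 ≠ 0}, a (.inr (.inl s)) ^ 2 := mul_le_of_le_one_left h5 hκ1
  have h8 : κ1 * ∑ s : Fin c, a (.inr (.inr s)) ^ 2 ≤ ∑ s : Fin c, a (.inr (.inr s)) ^ 2 :=
    mul_le_of_le_one_left h6 hκ1
  have h9 : κ1 * (∑ j : Fin d, a (.inl j) ^ 2 + (∑ s : {s : Fin c // X.α s 1 ≠ 0},
      a (.inr (.inl s)) ^ 2 + ∑ s : Fin c, a (.inr (.inr s)) ^ 2)) ≤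
      ∑ s, ∑ i, latR X (fun j => a (.inl j)) s i ^ 2 + ∑ s : {s : Fin c // X.α s 1 ≠ 0},
      a (.inr (.inl s)) ^ 2 + ∑ s : Fin c, a (.inr (.inr s)) ^ 2 := by
    rw [mul_add, mul_add]
    linarith
  have h10 := mul_le_mul_of_nonneg_left h9 (by positivity : 0 ≤ 2 * κ)
  linarith

/-- the conjugate vector -/
noncomputable def cj (h : X.Ix → ℂ) : X.Ix → ℂ := fun i => conj (h i)

theorem hP_conj (hX : X.Ok) {r κ K C0 κ1 : ℝ} (hκ : 0 < κ) (hB : ∀ s, Blk (X.α s) r κ K C0)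
    (hκ1 : κ1 ≤ 1) (hlat : ∀ t : Fin d → ℝ, κ1 * ∑ j, t j ^ 2 ≤ ∑ s, ∑ i, latR X t s i ^ 2)
    {u : X.Ix → ℂ} (hu : ∀ s, vW X u s ∈ Metric.ball (vC (X.α s)) r ∧ ‖tZ X u s‖ < r)
    (h : X.Ix → ℂ) : (hP X u h (cj X h)).re ≤ -(2 * κ * κ1) * ∑ i, ‖h i‖ ^ 2 := by
  set a : X.Ix → ℝ := fun i => (h i).re with ha
  set b : X.Ix → ℝ := fun i => (h i).im with hb
  have e1 : h = rv X a + Complex.I • rv X b := by
    funext i
    show h i = ((h i).re : ℂ) + Complex.I * ((h i).im : ℂ)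
    rw [mul_comm]
    exact (Complex.re_add_im (h i)).symm
  have e2 : cj X h = rv X a + (-Complex.I) • rv X b := by
    funext i
    show conj (h i) = ((h i).re : ℂ) + (-Complex.I) * ((h i).im : ℂ)
    apply Complex.ext <;> simp
  have e3 : hP X u h (cj X h) = hP X u (rv X a) (rv X a) + hP X u (rv X b) (rv X b) := by
    rw [e2, hP_add, hP_smul, hP_symm X u h, hP_symm X u h, e1, hP_add, hP_add, hP_smul, hP_smul,
      hP_symm X u (rv X b) (rv X a)]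
    have := Complex.I_mul_I
    linear_combination (-hP X u (rv X b) (rv X b)) * this
  rw [e3, Complex.add_re]
  have h1 := hP_real X hX hκ hB hκ1 hlat hu a
  have h2 := hP_real X hX hκ hB hκ1 hlat hu b
  have h3 : ∑ i, ‖h i‖ ^ 2 = ∑ i, a i ^ 2 + ∑ i, b i ^ 2 := by
    rw [← Finset.sum_add_distrib]
    refine Finset.sum_congr rfl fun i _ => ?_
    rw [Complex.sq_norm, Complex.normSq_apply]
    ring
  rw [h3, mul_add]
  exact add_le_add h1 h2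

/-! ### along segments -/

theorem gP_seg (hX : X.Ok) {r κ K C0 ρ : ℝ} (hB : ∀ s, Blk (X.α s) r κ K C0) (hρ : 0 < ρ)
    (hρr : ME X * ρ ≤ r) {u v : X.Ix → ℂ} (hu : NR X ρ u) (hv : NR X ρ v) (k : X.Ix → ℂ) {t : ℝ}
    (h0 : 0 ≤ t) (h1 : t ≤ 1) :
    HasDerivAt (fun τ : ℝ => gP X (v + (τ : ℂ) • (u - v)) k)
      (hP X (v + (t : ℂ) • (u - v)) (u - v) k) t :=
  shift_deriv X (f := fun z => gP X z k)
    (gP_deriv X hB (NR_ball X hX hρ hρr (NR_seg X hu hv h0 h1)) _ _)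

theorem gP_lip (hX : X.Ok) {r κ K C0 ρ : ℝ} (hB : ∀ s, Blk (X.α s) r κ K C0) (hρ : 0 < ρ)
    (hρr : ME X * ρ ≤ r) {u v : X.Ix → ℂ} (hu : NR X ρ u) (hv : NR X ρ v) (k : X.Ix → ℂ) :
    ‖gP X u k - gP X v k‖ ≤ (c * (|C0| * (ME X + 1) ^ 2)) * ‖u - v‖ * ‖k‖ := by
  have h1 := norm_image_sub_le_of_norm_deriv_le_segment_01'
    (f := fun τ : ℝ => gP X (v + (τ : ℂ) • (u - v)) k)
    (f' := fun t => hP X (v + (t : ℂ) • (u - v)) (u - v) k)
    (C := (c * (|C0| * (ME X + 1) ^ 2)) * ‖u - v‖ * ‖k‖)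
    (fun t ht => (gP_seg X hX hB hρ hρr hu hv k ht.1 ht.2).hasDerivWithinAt)
    (fun t ht => hP_norm X hB (NR_ball X hX hρ hρr (NR_seg X hu hv ht.1 ht.2.le)) _ _)
  simpa using h1

theorem gP_mono (hX : X.Ok) {r κ K C0 κ1 ρ : ℝ} (hκ : 0 < κ) (hB : ∀ s, Blk (X.α s) r κ K C0)
    (hκ1 : κ1 ≤ 1) (hlat : ∀ t : Fin d → ℝ, κ1 * ∑ j, t j ^ 2 ≤ ∑ s, ∑ i, latR X t s i ^ 2)
    (hρ : 0 < ρ) (hρr : ME X * ρ ≤ r) {u v : X.Ix → ℂ} (hu : NR X ρ u) (hv : NR X ρ v) :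
    (gP X u (cj X (u - v)) - gP X v (cj X (u - v))).re ≤ -(2 * κ * κ1) * ∑ i, ‖(u - v) i‖ ^ 2 := by
  have hd : ∀ t ∈ Set.Icc (0 : ℝ) 1,
      HasDerivAt (fun τ : ℝ => (gP X (v + (τ : ℂ) • (u - v)) (cj X (u - v))).re)
      (hP X (v + (t : ℂ) • (u - v)) (u - v) (cj X (u - v))).re t := by
    intro t ht
    exact (Complex.reCLM.hasFDerivAt.comp_hasDerivAt t
      (gP_seg X hX hB hρ hρr hu hv (cj X (u - v)) ht.1 ht.2))
  obtain ⟨t, ht, he⟩ := exists_hasDerivAt_eq_slope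
    (fun τ : ℝ => (gP X (v + (τ : ℂ) • (u - v)) (cj X (u - v))).re)
    (fun t => (hP X (v + (t : ℂ) • (u - v)) (u - v) (cj X (u - v))).re) one_pos
    (fun t ht => (hd t ht).continuousAt.continuousWithinAt)
    (fun t ht => hd t (Set.Ioo_subset_Icc_self ht))
  have h1 := hP_conj X hX hκ hB hκ1 hlat (NR_ball X hX hρ hρr (NR_seg X hu hv ht.1.le ht.2.le))
    (u - v)
  rw [he] at h1
  have h2 : v + ((1 : ℝ) : ℂ) • (u - v) = u := by simp
  have h3 : v + ((0 : ℝ) : ℂ) • (u - v) = v := by simp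
  rw [h2, h3, sub_zero, div_one] at h1
  rw [Complex.sub_re]
  exact h1

theorem NR_uC {ρ : ℝ} (hρ : 0 < ρ) : NR X ρ (uC X) := fun i => by
  rw [sub_self, norm_zero]
  exact hρ

theorem eP_near (hX : X.Ok) {r κ K C0 ρ : ℝ} (hB : ∀ s, Blk (X.α s) r κ K C0) (hρ : 0 < ρ)
    (hρr : ME X * ρ ≤ r) {u : X.Ix → ℂ} (hu : NR X ρ u) :
    ‖eP X u - eP X (uC X)‖ ≤ (c * (|C0| * (ME X + 1) ^ 2)) * ‖u - uC X‖ ^ 2 := by
  set MB : ℝ := c * (|C0| * (ME X + 1) ^ 2) with hMB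
  have hMB0 : 0 ≤ MB := by positivity
  have hv := NR_uC X hρ
  have h1 := norm_image_sub_le_of_norm_deriv_le_segment_01'
    (f := fun τ : ℝ => eP X (uC X + (τ : ℂ) • (u - uC X)))
    (f' := fun t => gP X (uC X + (t : ℂ) • (u - uC X)) (u - uC X))
    (C := MB * ‖u - uC X‖ ^ 2)
    (fun t ht => (shift_deriv X (f := eP X) (eP_deriv X hB (NR_ball X hX hρ hρr
      (NR_seg X hu hv ht.1 ht.2)) _)).hasDerivWithinAt)
    (fun t ht => ?_)
  · simpa using h1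
  · have h2 := gP_lip X hX hB hρ hρr (NR_seg X hu hv ht.1 ht.2.le) hv (u - uC X)
    rw [gP_uC X hX hB, sub_zero] at h2
    refine h2.trans ?_
    rw [add_sub_cancel_left, norm_smul, Complex.norm_real, Real.norm_of_nonneg ht.1]
    have h3 : t * ‖u - uC X‖ ≤ ‖u - uC X‖ := mul_le_of_le_one_left (norm_nonneg _) ht.2.le
    calc MB * (t * ‖u - uC X‖) * ‖u - uC X‖ ≤ MB * ‖u - uC X‖ * ‖u - uC X‖ :=
          mul_le_mul_of_nonneg_right (mul_le_mul_of_nonneg_left h3 hMB0) (norm_nonneg _)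
      _ = MB * ‖u - uC X‖ ^ 2 := by ring

end

end Pool.Agent.Q299.HT
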