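import Pool.Agent.Q299.HT.SDNA
import Pool.Agent.Q299.HT.SDNC

/-!
# Project HT, job SDN: the saddle point of a highly twisted network

Proof by helper299.  Instead of the implicit function theorem: the derivative of the potential is
strongly monotone (the terms of the twists are purely imaginary on the diagonal).
-/

set_option autoImplicit false

namespace Pool.Agent.Q299.HT

open Finset Filter Topology ComplexConjugate
open Pool.Agent.Q99.HT
open Pool.Agent.Q99.KN (S_LC)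

/-! ### the variable `ζ` -/

theorem zeta_lem {Kz w : ℝ} {ζ g : ℂ} (hK : 0 < Kz) (hg : ‖g + Kz * ζ‖ ≤ Kz / 2 * ‖ζ‖)
    (he : g + (Complex.I * Real.pi * w * ζ / 2 + Complex.I * Real.pi) = 0)
    (hw : 3 * Kz / Real.pi ≤ |w|) (hw1 : 1 ≤ |w|) :
    ‖ζ‖ ≤ 3 / |w| ∧ 0 < ζ.im ∧ ζ.im ≤ 27 * Kz / (2 * Real.pi) / w ^ 2 ∧
    |(Complex.I * Real.pi * w * ζ ^ 2 / 4 + Complex.I * Real.pi * ζ).re| ≤ 27 * Kz / 2 / w ^ 2 := by
  have hπ := Real.pi_pos
  have hw0 : 0 < |w| := by linarith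
  have hwK : 3 * Kz ≤ |w| * Real.pi := by rwa [div_le_iff₀ hπ] at hw
  set e : ℂ := g + Kz * ζ with hedef
  have hge : g = e - Kz * ζ := by rw [hedef]; ring
  -- the size
  have h1 : ζ * (Complex.I * ((Real.pi * w / 2 : ℝ) : ℂ) - Kz) = -(Complex.I * Real.pi + e) := by
    rw [hge] at he
    push_cast
    linear_combination he
  have h2 : Real.pi * |w| / 2 ≤ ‖Complex.I * ((Real.pi * w / 2 : ℝ) : ℂ) - Kz‖ := by
    refine le_trans (le_of_eq ?_) (Complex.abs_im_le_norm _)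
    simp only [Complex.sub_im, Complex.mul_im, Complex.I_re, Complex.ofReal_im, mul_zero,
      Complex.I_im, Complex.ofReal_re, one_mul, zero_add, sub_zero]
    rw [abs_div, abs_mul, abs_of_pos hπ]
    norm_num
  have h3 : ‖ζ‖ * (Real.pi * |w| / 2) ≤ Real.pi + Kz / 2 * ‖ζ‖ := by
    calc ‖ζ‖ * (Real.pi * |w| / 2) ≤ ‖ζ‖ * ‖Complex.I * ((Real.pi * w / 2 : ℝ) : ℂ) - Kz‖ :=
          mul_le_mul_of_nonneg_left h2 (norm_nonneg _)
      _ = ‖Complex.I * Real.pi + e‖ := by rw [← norm_mul, h1, norm_neg]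
      _ ≤ ‖Complex.I * (Real.pi : ℂ)‖ + ‖e‖ := norm_add_le _ _
      _ ≤ Real.pi + Kz / 2 * ‖ζ‖ := by
          rw [norm_mul, Complex.norm_I, one_mul, Complex.norm_real, Real.norm_of_nonneg hπ.le]
          linarith
  have h4 : ‖ζ‖ * |w| ≤ 3 := by
    have h5 : Kz / 2 * ‖ζ‖ ≤ (|w| * Real.pi / 6) * ‖ζ‖ :=
      mul_le_mul_of_nonneg_right (by linarith) (norm_nonneg _)
    have h6 : Real.pi * (‖ζ‖ * |w|) ≤ Real.pi * 3 := by nlinarith
    exact le_of_mul_le_mul_left h6 hπ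
  have h5 : ‖ζ‖ ≤ 3 / |w| := by rwa [le_div_iff₀ hw0]
  have h5' : ‖ζ‖ ^ 2 ≤ 9 / w ^ 2 := by
    calc ‖ζ‖ ^ 2 ≤ (3 / |w|) ^ 2 := pow_le_pow_left₀ (norm_nonneg _) h5 2
      _ = 9 / w ^ 2 := by rw [div_pow, sq_abs]; norm_num
  -- not zero
  have hζ0 : ζ ≠ 0 := by
    intro h0
    have h6 : e = 0 := by
      rw [← norm_le_zero_iff]
      rw [h0, norm_zero, mul_zero] at hg
      exact hg
    rw [hge, h6, h0] at he
    have h7 := congrArg Complex.im he
    simp at h7
  have hζn : 0 < ‖ζ‖ ^ 2 := by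
    have := norm_pos_iff.2 hζ0
    positivity
  -- the imaginary part
  have a1 := congrArg Complex.re he
  have a2 := congrArg Complex.im he
  have b1 : g.re - Real.pi * w * ζ.im / 2 = 0 := by
    have : (Complex.I * Real.pi * w * ζ / 2 + Complex.I * Real.pi : ℂ) =
        Complex.I * (((Real.pi * w / 2 : ℝ) : ℂ) * ζ + ((Real.pi : ℝ) : ℂ)) := by
      push_cast
      ring
    rw [this] at a1
    simp only [Complex.add_re, Complex.mul_re, Complex.I_re, Complex.I_im, Complex.add_im,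
      Complex.mul_im, Complex.ofReal_re, Complex.ofReal_im, Complex.zero_re] at a1
    linarith
  have b2 : g.im + Real.pi * w * ζ.re / 2 + Real.pi = 0 := by
    have : (Complex.I * Real.pi * w * ζ / 2 + Complex.I * Real.pi : ℂ) =
        Complex.I * (((Real.pi * w / 2 : ℝ) : ℂ) * ζ + ((Real.pi : ℝ) : ℂ)) := by
      push_cast
      ring
    rw [this] at a2
    simp only [Complex.add_re, Complex.mul_re, Complex.I_re, Complex.I_im, Complex.add_im,
      Complex.mul_im, Complex.ofReal_re, Complex.ofReal_im, Complex.zero_im] at a2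
    linarith
  have h7 : Real.pi * ζ.im = -(g * conj ζ).re := by
    simp only [Complex.mul_re, Complex.conj_re, Complex.conj_im]
    linear_combination ζ.re * b1 + ζ.im * b2
  have h8 : (g * conj ζ).re = (e * conj ζ).re - Kz * ‖ζ‖ ^ 2 := by
    rw [hge, sub_mul, Complex.sub_re, mul_assoc, Complex.mul_conj, Complex.normSq_eq_norm_sq]
    congr 1
    rw [← Complex.ofReal_mul, Complex.ofReal_re]
  have h9 : |(e * conj ζ).re| ≤ Kz / 2 * ‖ζ‖ ^ 2 := by
    refine (Complex.abs_re_le_norm _).trans ?_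
    rw [norm_mul, Complex.norm_conj, sq, ← mul_assoc]
    exact mul_le_mul_of_nonneg_right hg (norm_nonneg _)
  have h10 := abs_le.1 h9
  have h11 : 0 < Real.pi * ζ.im := by
    rw [h7, h8]
    nlinarith [h10.2, mul_pos hK hζn]
  have h12 : Real.pi * ζ.im ≤ 3 / 2 * Kz * ‖ζ‖ ^ 2 := by
    rw [h7, h8]
    linarith [h10.1]
  have h13 : 3 / 2 * Kz * ‖ζ‖ ^ 2 ≤ 27 * Kz / 2 / w ^ 2 := by
    calc 3 / 2 * Kz * ‖ζ‖ ^ 2 ≤ 3 / 2 * Kz * (9 / w ^ 2) :=
          mul_le_mul_of_nonneg_left h5' (by positivity)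
      _ = 27 * Kz / 2 / w ^ 2 := by ring
  refine ⟨h5, pos_of_mul_pos_right h11 hπ.le, ?_, ?_⟩
  · have h14 : ζ.im ≤ 27 * Kz / 2 / w ^ 2 / Real.pi := by
      rw [le_div_iff₀ hπ, mul_comm]
      exact h12.trans h13
    refine h14.trans (le_of_eq ?_)
    field_simp
  · have h15 : Complex.I * Real.pi * w * ζ ^ 2 / 4 + Complex.I * Real.pi * ζ =
        -(ζ * g) / 2 + Complex.I * ((Real.pi / 2 : ℝ) : ℂ) * ζ := by
      push_cast
      linear_combination (ζ / 2) * he
    rw [h15, Complex.add_re]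
    have h16 : (Complex.I * ((Real.pi / 2 : ℝ) : ℂ) * ζ).re = -(Real.pi * ζ.im) / 2 := by
      simp only [Complex.mul_re, Complex.mul_im, Complex.I_re, Complex.I_im, Complex.ofReal_re,
        Complex.ofReal_im]
      ring
    have h17 : |(-(ζ * g) / 2).re| ≤ 3 / 4 * Kz * ‖ζ‖ ^ 2 := by
      refine (Complex.abs_re_le_norm _).trans ?_
      rw [norm_div, norm_neg, norm_mul]
      have h18 : ‖g‖ ≤ 3 / 2 * Kz * ‖ζ‖ := by
        rw [hge]
        refine (norm_sub_le _ _).trans ?_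
        rw [norm_mul, Complex.norm_real, Real.norm_of_nonneg hK.le]
        linarith
      have h19 : ‖(2 : ℂ)‖ = 2 := by norm_num
      rw [h19, div_le_iff₀ (by norm_num)]
      calc ‖ζ‖ * ‖g‖ ≤ ‖ζ‖ * (3 / 2 * Kz * ‖ζ‖) := mul_le_mul_of_nonneg_left h18 (norm_nonneg _)
        _ = 3 / 4 * Kz * ‖ζ‖ ^ 2 * 2 := by ring
    rw [h16]
    refine (abs_add_le _ _).trans ?_
    have h20 : |-(Real.pi * ζ.im) / 2| ≤ 3 / 4 * Kz * ‖ζ‖ ^ 2 := by
      rw [abs_div, abs_neg, abs_of_pos h11, abs_of_pos (by norm_num : (0 : ℝ) < 2)]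
      linarith
    linarith

section
variable {c d : ℕ} (X : Nw c d)

/-! ### the derivative of the potential with the twists -/

/-- the derivative of the potential -/
noncomputable def gW (w : Fin c → ℤ) (u h : X.Ix → ℂ) : ℂ :=
  gP X u h + ∑ s, (Complex.I * Real.pi * w s * tZ X u s / 2 + Complex.I * Real.pi) * tZ X h s

theorem GP_eq (w : Fin c → ℤ) (u h : X.Ix → ℂ) :
    X.GP w (tT X u) (tJ X u) (tZ X u) (tT X h) (tJ X h) (tZ X h) = gW X w u h := by
  unfold Nw.GP gW gP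
  rw [← Finset.sum_add_distrib]
  rfl

theorem gW_add (w : Fin c → ℤ) (u h k : X.Ix → ℂ) : gW X w u (h + k) = gW X w u h + gW X w u k := by
  unfold gW
  rw [gP_add, tZ_add]
  simp only [Pi.add_apply, mul_add, Finset.sum_add_distrib]
  ring

theorem gW_smul (w : Fin c → ℤ) (u : X.Ix → ℂ) (a : ℂ) (h : X.Ix → ℂ) :
    gW X w u (a • h) = a * gW X w u h := by
  unfold gW
  rw [gP_smul, tZ_smul, mul_add, Finset.mul_sum]
  congr 1
  refine Finset.sum_congr rfl fun s _ => ?_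
  simp only [Pi.smul_apply, smul_eq_mul]
  ring

open Classical in
/-- unit vectors -/
noncomputable def bs (i : X.Ix) : X.Ix → ℂ := fun j => if i = j then 1 else 0

theorem bs_norm (i : X.Ix) : ‖bs X i‖ ≤ 1 := by
  rw [pi_norm_le_iff_of_nonneg zero_le_one]
  intro j
  unfold bs
  split_ifs <;> simp

theorem gW_sum (w : Fin c → ℤ) (u h : X.Ix → ℂ) : gW X w u h = ∑ i, h i * gW X w u (bs X i) := by
  classical
  let L : (X.Ix → ℂ) →ₗ[ℂ] ℂ :=
    { toFun := gW X w u
      map_add' := gW_add X w u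
      map_smul' := fun a h => gW_smul X w u a h }
  have h1 := LinearMap.pi_apply_eq_sum_univ L h
  have h2 : ∀ i, (fun j => if i = j then (1 : ℂ) else 0) = bs X i := by
    intro i
    funext j
    unfold bs
    congr
  simp only [h2] at h1
  exact h1

theorem Cr_of {w : Fin c → ℤ} {u : X.Ix → ℂ} (h : ∀ k, gW X w u k = 0) :
    X.Cr w (tT X u) (tJ X u) (tZ X u) := by
  refine ⟨tJ_AJ X u, fun T' J' ζ' hJ' => ?_⟩
  have h1 := h (pk X T' J' ζ')
  rw [← GP_eq, tT_pk, tJ_pk X T' ζ' hJ', tZ_pk] at h1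
  exact h1

theorem of_Cr {w : Fin c → ℤ} {T : Fin d → ℂ} {J ζ : Fin c → ℂ} (hc : X.Cr w T J ζ) (k : X.Ix → ℂ) :
    gW X w (pk X T J ζ) k = 0 := by
  rw [← GP_eq, tT_pk, tJ_pk X T ζ hc.aj, tZ_pk]
  exact hc.eq _ _ _ (tJ_AJ X k)

theorem NR_of_Nr {ρ : ℝ} {T : Fin d → ℂ} {J ζ : Fin c → ℂ} (h : X.Nr ρ T J ζ) :
    NR X ρ (pk X T J ζ) := by
  intro i
  rcases i with i | i | i
  · exact h.1 i
  · exact h.2.1 i.1
  · show ‖ζ i - 0‖ < ρ
    rw [sub_zero]
    exact h.2.2 i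

theorem Nr_of_NR {ρ : ℝ} (hρ : 0 < ρ) {u : X.Ix → ℂ} (h : NR X ρ u) :
    X.Nr ρ (tT X u) (tJ X u) (tZ X u) := by
  refine ⟨fun j => h (.inl j), fun s => ?_, fun s => ?_⟩
  · by_cases hs : X.α s 1 ≠ 0
    · have := h (.inr (.inl ⟨s, hs⟩))
      unfold tJ
      rw [dif_pos hs]
      exact this
    · unfold tJ
      rw [dif_neg hs, not_not.1 hs]
      simpa using hρ
  · have := h (.inr (.inr s))
    have e : u (.inr (.inr s)) - uC X (.inr (.inr s)) = tZ X u s := sub_zero _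
    rw [e] at this
    exact this

theorem cj_tZ (h : X.Ix → ℂ) (s : Fin c) : tZ X (cj X h) s = conj (tZ X h s) := rfl

theorem gW_mono (hX : X.Ok) {r κ K C0 κ1 ρ : ℝ} (hκ : 0 < κ) (hB : ∀ s, Blk (X.α s) r κ K C0)
    (hκ1 : κ1 ≤ 1) (hlat : ∀ t : Fin d → ℝ, κ1 * ∑ j, t j ^ 2 ≤ ∑ s, ∑ i, latR X t s i ^ 2)
    (hρ : 0 < ρ) (hρr : ME X * ρ ≤ r) (w : Fin c → ℤ) {u v : X.Ix → ℂ} (hu : NR X ρ u)
    (hv : NR X ρ v) :
    (gW X w u (cj X (u - v)) - gW X w v (cj X (u - v))).re ≤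
      -(2 * κ * κ1) * ∑ i, ‖(u - v) i‖ ^ 2 := by
  have h1 := gP_mono X hX hκ hB hκ1 hlat hρ hρr hu hv
  have h2 : gW X w u (cj X (u - v)) - gW X w v (cj X (u - v)) =
      (gP X u (cj X (u - v)) - gP X v (cj X (u - v))) +
      ∑ s, Complex.I * ((Real.pi * w s / 2 * Complex.normSq (tZ X (u - v) s) : ℝ) : ℂ) := by
    unfold gW
    have h3 : ∀ s, Complex.I * ((Real.pi * w s / 2 * Complex.normSq (tZ X (u - v) s) : ℝ) : ℂ) =
        (Complex.I * Real.pi * w s * tZ X u s / 2 + Complex.I * Real.pi) * tZ X (cj X (u - v)) s -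
        (Complex.I * Real.pi * w s * tZ X v s / 2 + Complex.I * Real.pi) * tZ X (cj X (u - v)) s := by
      intro s
      rw [cj_tZ]
      have h4 := Complex.mul_conj (tZ X (u - v) s)
      have h5 : tZ X (u - v) s = tZ X u s - tZ X v s := rfl
      push_cast
      rw [← h4]
      nth_rewrite 1 [h5]
      ring
    simp only [h3]
    rw [Finset.sum_sub_distrib]
    ring
  rw [h2, Complex.add_re, Complex.re_sum]
  have h6 : ∑ s, (Complex.I * ((Real.pi * w s / 2 * Complex.normSq (tZ X (u - v) s) : ℝ) : ℂ)).re =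
      0 := by
    refine Finset.sum_eq_zero fun s _ => ?_
    rw [Complex.mul_re, Complex.I_re, Complex.ofReal_im]
    ring
  rw [h6, add_zero]
  exact h1

theorem gW_lip (hX : X.Ok) {r κ K C0 ρ : ℝ} (hB : ∀ s, Blk (X.α s) r κ K C0) (hρ : 0 < ρ)
    (hρr : ME X * ρ ≤ r) (w : Fin c → ℤ) {u v : X.Ix → ℂ} (hu : NR X ρ u) (hv : NR X ρ v)
    (k : X.Ix → ℂ) (hk : ‖k‖ ≤ 1) :
    ‖gW X w u k - gW X w v k‖ ≤
      ((c * (|C0| * (ME X + 1) ^ 2)) + ∑ s, Real.pi * |(w s : ℝ)| / 2) * ‖u - v‖ := by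
  have h1 := gP_lip X hX hB hρ hρr hu hv k
  have h2 : gW X w u k - gW X w v k = (gP X u k - gP X v k) +
      ∑ s, Complex.I * ((Real.pi * w s / 2 : ℝ) : ℂ) * tZ X (u - v) s * tZ X k s := by
    unfold gW
    have h3 : ∀ s, Complex.I * ((Real.pi * w s / 2 : ℝ) : ℂ) * tZ X (u - v) s * tZ X k s =
        (Complex.I * Real.pi * w s * tZ X u s / 2 + Complex.I * Real.pi) * tZ X k s -
        (Complex.I * Real.pi * w s * tZ X v s / 2 + Complex.I * Real.pi) * tZ X k s := by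
      intro s
      have h5 : tZ X (u - v) s = tZ X u s - tZ X v s := rfl
      rw [h5]
      push_cast
      ring
    simp only [h3]
    rw [Finset.sum_sub_distrib]
    ring
  rw [h2]
  refine (norm_add_le _ _).trans ?_
  rw [add_mul]
  refine add_le_add ?_ ?_
  · refine h1.trans ?_
    exact mul_le_of_le_one_right (by positivity) hk
  · refine (norm_sum_le _ _).trans ?_
    rw [Finset.sum_mul]
    refine Finset.sum_le_sum fun s _ => ?_
    rw [norm_mul, norm_mul, norm_mul, Complex.norm_I, one_mul, Complex.norm_real, Real.norm_eq_abs,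
      abs_div, abs_mul, abs_of_pos Real.pi_pos, abs_of_pos (by norm_num : (0 : ℝ) < 2)]
    have a1 := norm_tZ X (u - v) s
    have a2 := (norm_tZ X k s).trans hk
    have a3 : 0 ≤ Real.pi * |(w s : ℝ)| / 2 := by have := Real.pi_pos; positivity
    calc Real.pi * |(w s : ℝ)| / 2 * ‖tZ X (u - v) s‖ * ‖tZ X k s‖
        ≤ Real.pi * |(w s : ℝ)| / 2 * ‖u - v‖ * 1 :=
          mul_le_mul (mul_le_mul_of_nonneg_left a1 a3) a2 (norm_nonneg _) (by positivity)
      _ = Real.pi * |(w s : ℝ)| / 2 * ‖u - v‖ := mul_one _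

/-- the starting point -/
noncomputable def u0 (w : Fin c → ℤ) : X.Ix → ℂ := Sum.elim (fun j => (X.τ j : ℂ))
  (Sum.elim (fun s => (X.α s.1 1 : ℂ)) (fun s => -2 / (w s : ℂ)))

theorem u0_near {w : Fin c → ℤ} {Wm : ℝ} (hW : 1 ≤ Wm) (hw : ∀ s, Wm ≤ |(w s : ℝ)|) :
    ‖u0 X w - uC X‖ ≤ 2 / Wm := by
  have h0 : 0 ≤ 2 / Wm := by positivity
  rw [pi_norm_le_iff_of_nonneg h0]
  intro i
  rcases i with i | i | i
  · show ‖(X.τ i : ℂ) - (X.τ i : ℂ)‖ ≤ _
    rw [sub_self, norm_zero]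
    exact h0
  · show ‖(X.α i.1 1 : ℂ) - (X.α i.1 1 : ℂ)‖ ≤ _
    rw [sub_self, norm_zero]
    exact h0
  · show ‖-2 / (w i : ℂ) - 0‖ ≤ _
    rw [sub_zero, norm_div, norm_neg]
    have e1 : ‖(w i : ℂ)‖ = |(w i : ℝ)| := by
      rw [← Complex.ofReal_intCast, Complex.norm_real, Real.norm_eq_abs]
    have e2 : ‖(2 : ℂ)‖ = 2 := by norm_num
    rw [e1, e2]
    exact div_le_div_of_nonneg_left (by norm_num) (by linarith) (hw i)

theorem gW_u0 {w : Fin c → ℤ} (hw : ∀ s, w s ≠ 0) (k : X.Ix → ℂ) :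
    gW X w (u0 X w) k = gP X (u0 X w) k := by
  unfold gW
  have h1 : ∑ s, (Complex.I * Real.pi * w s * tZ X (u0 X w) s / 2 + Complex.I * Real.pi) *
      tZ X k s = 0 := by
    refine Finset.sum_eq_zero fun s _ => ?_
    have h2 : tZ X (u0 X w) s = -2 / (w s : ℂ) := rfl
    have h3 : (w s : ℂ) ≠ 0 := by exact_mod_cast hw s
    rw [h2]
    have h4 : Complex.I * Real.pi * (w s : ℂ) * (-2 / (w s : ℂ)) / 2 + Complex.I * Real.pi = 0 := by
      field_simp
      ring
    rw [h4, zero_mul]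
  rw [h1, add_zero]

/-- the equation of the summation index -/
theorem gP_J (u : X.Ix → ℂ) (s : Fin c) (hs : X.α s 1 ≠ 0) :
    gP X u (bs X (.inr (.inl ⟨s, hs⟩))) = PG (X.α s) (vW X u s) (tZ X u s) e3 0 := by
  classical
  unfold gP
  have hT : ∀ j, tT X (bs X (.inr (.inl ⟨s, hs⟩))) j = 0 := fun j => by
    unfold tT bs
    simp
  have hZ : ∀ s', tZ X (bs X (.inr (.inl ⟨s, hs⟩))) s' = 0 := fun j => by
    unfold tZ bs
    simp
  rw [Finset.sum_eq_single s]
  · rw [hZ]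
    congr 1
    unfold dW Nw.dv
    funext i
    fin_cases i
    · simp [hT, e3]
    · simp [hT, e3]
    · simp [hT, e3]
    · show tJ X (bs X (.inr (.inl ⟨s, hs⟩))) s = 1
      unfold tJ
      rw [dif_pos hs]
      unfold bs
      simp
  · intro s' _ hne
    rw [hZ]
    have : dW X (bs X (.inr (.inl ⟨s, hs⟩))) s' = 0 := by
      unfold dW Nw.dv
      funext i
      fin_cases i
      · simp [hT]
      · simp [hT]
      · simp [hT]
      · show tJ X (bs X (.inr (.inl ⟨s, hs⟩))) s' = 0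
        unfold tJ bs
        split_ifs with h1 h2
        · exfalso
          apply hne
          have := Sum.inl_injective (Sum.inr_injective h2)
          exact (congrArg Subtype.val this).symm
        · rfl
        · rfl
    rw [this, PG_zero]
  · intro h
    exact absurd (Finset.mem_univ s) h

/-- the equation of `ζ` -/
theorem gP_Z (u : X.Ix → ℂ) (s : Fin c) :
    gP X u (bs X (.inr (.inr s))) = PG (X.α s) (vW X u s) (tZ X u s) 0 1 := by
  classical
  unfold gP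
  have hT : ∀ j, tT X (bs X (.inr (.inr s))) j = 0 := fun j => by
    unfold tT bs
    simp
  have hJ : ∀ s', tJ X (bs X (.inr (.inr s))) s' = 0 := fun j => by
    unfold tJ bs
    simp
  have hD : ∀ s', dW X (bs X (.inr (.inr s))) s' = 0 := by
    intro s'
    unfold dW Nw.dv
    funext i
    fin_cases i <;> simp [hT, hJ]
  rw [Finset.sum_eq_single s]
  · rw [hD]
    congr 1
    unfold tZ bs
    simp
  · intro s' _ hne
    rw [hD]
    have : tZ X (bs X (.inr (.inr s))) s' = 0 := by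
      unfold tZ bs
      rw [if_neg]
      intro h
      exact hne (Sum.inr_injective (Sum.inr_injective h)).symm
    rw [this, PG_zero]
  · intro h
    exact absurd (Finset.mem_univ s) h

theorem gW_Z (w : Fin c → ℤ) (u : X.Ix → ℂ) (s : Fin c) :
    gW X w u (bs X (.inr (.inr s))) = PG (X.α s) (vW X u s) (tZ X u s) 0 1 +
      (Complex.I * Real.pi * w s * tZ X u s / 2 + Complex.I * Real.pi) := by
  classical
  unfold gW
  rw [gP_Z, Finset.sum_eq_single s]
  · congr 1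
    unfold tZ bs
    simp
  · intro s' _ hne
    have : tZ X (bs X (.inr (.inr s))) s' = 0 := by
      unfold tZ bs
      rw [if_neg]
      intro h
      exact hne (Sum.inr_injective (Sum.inr_injective h)).symm
    rw [this, mul_zero]
  · intro h
    exact absurd (Finset.mem_univ s) h

theorem gW_J (w : Fin c → ℤ) (u : X.Ix → ℂ) (s : Fin c) (hs : X.α s 1 ≠ 0) :
    gW X w u (bs X (.inr (.inl ⟨s, hs⟩))) = PG (X.α s) (vW X u s) (tZ X u s) e3 0 := by
  classical
  unfold gW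
  rw [gP_J]
  have : ∑ s', (Complex.I * Real.pi * w s' * tZ X u s' / 2 + Complex.I * Real.pi) *
      tZ X (bs X (.inr (.inl ⟨s, hs⟩))) s' = 0 := by
    refine Finset.sum_eq_zero fun s' _ => ?_
    have h1 : tZ X (bs X (.inr (.inl ⟨s, hs⟩))) s' = 0 := by
      unfold tZ bs
      simp
    rw [h1, mul_zero]
  rw [this, add_zero]

end

end Pool.Agent.Q299.HT
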